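import Mathlib

/-! Counting tuples of vertices in a sparse symmetric relation. -/

set_option autoImplicit false

namespace Pool.Agent.H65.CF

open Finset

/-- `s`-tuples of elements of `Fin n`. -/
abbrev Tup (n s : ℕ) := Fin s → Fin n

section Basic

variable {n s : ℕ}

theorem prod_one_special (i : Fin s) (a b : ℕ) :
    ∏ j : Fin s, (if j = i then a else b) = a * b ^ (s - 1) := by
  rw [prod_ite]
  simp [filter_eq', filter_ne']

theorem prod_two_special (i k : Fin s) (hik : k ≠ i) (b : ℕ) :
    ∏ j : Fin s, (if j = i then 1 else if j = k then 1 else b) = b ^ (s - 2) := by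
  rw [prod_ite, prod_const_one, one_mul, prod_ite, prod_const_one, one_mul, prod_const]
  congr 1
  have : (univ.filter (fun x : Fin s => ¬ x = i)).filter (fun x => ¬ x = k) =
      (univ.erase i).erase k := by
    ext x; simp [and_comm]
  rw [this, card_erase_of_mem (by simp [hik]), card_erase_of_mem (mem_univ _), card_univ,
    Fintype.card_fin]
  omega

theorem card_fix (i : Fin s) (v : Fin n) :
    (univ.filter fun x : Tup n s => x i = v).card = n ^ (s - 1) := by
  classical
  have h : (univ.filter fun x : Tup n s => x i = v) =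
      Fintype.piFinset (fun j => if j = i then ({v} : Finset (Fin n)) else univ) := by
    ext x
    simp only [mem_filter, mem_univ, true_and, Fintype.mem_piFinset]
    constructor
    · intro h j
      split_ifs with hj
      · rw [mem_singleton, hj, h]
      · exact mem_univ _
    · intro h
      have := h i
      simpa using this
  rw [h, Fintype.card_piFinset]
  have : ∀ j, (if j = i then ({v} : Finset (Fin n)) else univ).card = if j = i then 1 else n := by
    intro j; split_ifs <;> simp
  rw [prod_congr rfl (fun j _ => this j), prod_one_special, one_mul]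

theorem card_fix_two (i k : Fin s) (hik : k ≠ i) (v w : Fin n) :
    (univ.filter fun x : Tup n s => x i = v ∧ x k = w).card = n ^ (s - 2) := by
  classical
  have h : (univ.filter fun x : Tup n s => x i = v ∧ x k = w) =
      Fintype.piFinset (fun j => if j = i then ({v} : Finset (Fin n)) else
        if j = k then {w} else univ) := by
    ext x
    simp only [mem_filter, mem_univ, true_and, Fintype.mem_piFinset]
    constructor
    · intro h j
      split_ifs with hj hk
      · rw [mem_singleton, hj, h.1]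
      · rw [mem_singleton, hk, h.2]
      · exact mem_univ _
    · intro h
      have h1 := h i
      have h2 := h k
      rw [if_neg hik, if_pos rfl, mem_singleton] at h2
      rw [if_pos rfl, mem_singleton] at h1
      exact ⟨h1, h2⟩
  rw [h, Fintype.card_piFinset]
  have : ∀ j, (if j = i then ({v} : Finset (Fin n)) else
        if j = k then {w} else univ).card = if j = i then 1 else if j = k then 1 else n := by
    intro j; split_ifs <;> simp
  rw [prod_congr rfl (fun j _ => this j), prod_two_special i k hik]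

end Basic

section Rel

variable {n s : ℕ} (H : Fin n → Fin n → Prop) [DecidableRel H] (K D : ℕ)

/-- The common `H`-neighbours of the tuple `x`. -/
def Zs (x : Tup n s) : Finset (Fin n) := univ.filter fun u => ∀ i, H (x i) u

/-- No two entries are in relation, and there are few common `H`-neighbours. -/
def Good (x : Tup n s) : Prop :=
  (∀ j k, j ≠ k → ¬ H (x j) (x k)) ∧ (Zs H x).card * n ^ (s - 1) ≤ K * D ^ s

instance : DecidablePred (Good H K D (s := s)) := fun _ => inferInstanceAs (Decidable (_ ∧ _))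

/-- All pairs of entries of the two tuples are in relation. -/
def Cross (x y : Tup n s) : Prop := ∀ i j, H (x i) (y j)

instance (x y : Tup n s) : Decidable (Cross H x y) := inferInstanceAs (Decidable (∀ _ _, _))

variable (hsymm : ∀ u v, H u v → H v u) (hD : ∀ v, (univ.filter (H v)).card ≤ D)

include hD in
theorem pair_count (i j k : Fin s) (hki : k ≠ i) (hjk : j ≠ k) (v : Fin n) :
    (univ.filter fun x : Tup n s => x i = v ∧ H (x j) (x k)).card ≤ D * n ^ (s - 2) := by
  classical
  set A := univ.filter fun x : Tup n s => x i = v ∧ H (x j) (x k) with hA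
  set f : Tup n s → Tup n s := fun x => Function.update x k v with hf
  have h1 := card_le_mul_card_image (f := f) A D ?_
  · refine h1.trans (Nat.mul_le_mul_left D ?_)
    rw [← card_fix_two i k hki v v]
    apply card_le_card
    intro y hy
    rw [mem_image] at hy
    obtain ⟨x, hx, rfl⟩ := hy
    rw [hA, mem_filter] at hx
    rw [mem_filter]
    refine ⟨mem_univ _, ?_, ?_⟩
    · rw [hf]
      simp only
      rw [Function.update_of_ne hki.symm]
      exact hx.2.1
    · simp [hf]
  · intro y _
    refine le_trans ?_ (hD (y j))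
    apply card_le_card_of_injOn (fun x => x k)
    · intro x hx
      rw [mem_coe, mem_filter, hA, mem_filter] at hx
      rw [mem_coe, mem_filter]
      refine ⟨mem_univ _, ?_⟩
      have h3 : y j = x j := by
        rw [← hx.2, hf]
        simp only
        rw [Function.update_of_ne hjk]
      rw [h3]
      exact hx.1.2.2
    · intro x hx x' hx' hxx
      rw [mem_coe, mem_filter] at hx hx'
      funext l
      by_cases hl : l = k
      · rw [hl]; exact hxx
      · have h4 : f x l = f x' l := by rw [hx.2, hx'.2]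
        rw [hf] at h4
        simp only at h4
        rwa [Function.update_of_ne hl, Function.update_of_ne hl] at h4

include hsymm hD in
theorem nonclique_count (i : Fin s) (v : Fin n) :
    (univ.filter fun x : Tup n s => x i = v ∧ ∃ j k, j ≠ k ∧ H (x j) (x k)).card ≤
      s ^ 2 * (D * n ^ (s - 2)) := by
  classical
  have hsub : (univ.filter fun x : Tup n s => x i = v ∧ ∃ j k, j ≠ k ∧ H (x j) (x k)) ⊆
      ((univ : Finset (Fin s × Fin s))).biUnion (fun p => univ.filter fun x : Tup n s =>
        p.2 ≠ i ∧ p.1 ≠ p.2 ∧ x i = v ∧ H (x p.1) (x p.2)) := by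
    intro x hx
    rw [mem_filter] at hx
    obtain ⟨-, hxi, j, k, hjk, hH⟩ := hx
    rw [mem_biUnion]
    by_cases hk : k = i
    · refine ⟨(k, j), mem_univ _, ?_⟩
      rw [mem_filter]
      refine ⟨mem_univ _, ?_, ?_, hxi, hsymm _ _ hH⟩
      · rw [← hk]; exact hjk
      · exact hjk.symm
    · refine ⟨(j, k), mem_univ _, ?_⟩
      rw [mem_filter]
      exact ⟨mem_univ _, hk, hjk, hxi, hH⟩
  refine (card_le_card hsub).trans (card_biUnion_le.trans ?_)
  have h2 : ∀ p ∈ (univ : Finset (Fin s × Fin s)), (univ.filter fun x : Tup n s =>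
        p.2 ≠ i ∧ p.1 ≠ p.2 ∧ x i = v ∧ H (x p.1) (x p.2)).card ≤ D * n ^ (s - 2) := by
    intro p _
    by_cases h : p.2 ≠ i ∧ p.1 ≠ p.2
    · refine le_trans (card_le_card ?_) (pair_count H D hD i p.1 p.2 h.1 h.2 v)
      intro x hx
      rw [mem_filter] at hx ⊢
      exact ⟨mem_univ _, hx.2.2.2⟩
    · have : (univ.filter fun x : Tup n s =>
        p.2 ≠ i ∧ p.1 ≠ p.2 ∧ x i = v ∧ H (x p.1) (x p.2)) = ∅ := by
        rw [filter_eq_empty_iff]
        intro x _ hx
        exact h ⟨hx.1, hx.2.1⟩
      rw [this]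
      simp
  refine (sum_le_card_nsmul _ _ _ h2).trans ?_
  rw [card_univ, Fintype.card_prod, Fintype.card_fin, smul_eq_mul, sq]

include hsymm hD in
theorem zsum (i : Fin s) (v : Fin n) :
    ∑ x ∈ univ.filter (fun x : Tup n s => x i = v), (Zs H x).card ≤ D ^ s := by
  classical
  have hs : 0 < s := i.pos
  have h1 := sum_card_bipartiteAbove_eq_sum_card_bipartiteBelow
    (s := univ.filter (fun x : Tup n s => x i = v)) (t := (univ : Finset (Fin n)))
    (fun x u => ∀ j, H (x j) u)
  have h2 : ∑ x ∈ univ.filter (fun x : Tup n s => x i = v), (Zs H x).card =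
      ∑ u : Fin n, ((univ.filter (fun x : Tup n s => x i = v)).filter
        (fun x => ∀ j, H (x j) u)).card := h1
  rw [h2]
  have h3 : ∀ u : Fin n, ((univ.filter (fun x : Tup n s => x i = v)).filter
        (fun x => ∀ j, H (x j) u)).card ≤ if H v u then D ^ (s - 1) else 0 := by
    intro u
    split_ifs with hu
    · have h4 : ((univ.filter (fun x : Tup n s => x i = v)).filter
          (fun x => ∀ j, H (x j) u)) ⊆ Fintype.piFinset (fun j => if j = i then ({v} : Finset (Fin n))
            else univ.filter (H u)) := by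
        intro x hx
        rw [mem_filter, mem_filter] at hx
        rw [Fintype.mem_piFinset]
        intro j
        split_ifs with hj
        · rw [mem_singleton, hj, hx.1.2]
        · rw [mem_filter]
          exact ⟨mem_univ _, hsymm _ _ (hx.2 j)⟩
      refine (card_le_card h4).trans ?_
      rw [Fintype.card_piFinset]
      have h5 : ∀ j, (if j = i then ({v} : Finset (Fin n)) else univ.filter (H u)).card =
          if j = i then 1 else (univ.filter (H u)).card := by
        intro j; split_ifs <;> simp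
      rw [prod_congr rfl (fun j _ => h5 j), prod_one_special, one_mul]
      exact Nat.pow_le_pow_left (hD u) _
    · rw [Nat.le_zero, card_eq_zero, filter_eq_empty_iff]
      intro x hx h
      rw [mem_filter] at hx
      apply hu
      rw [← hx.2]
      exact h i
  refine (sum_le_sum fun u _ => h3 u).trans ?_
  rw [← sum_filter, sum_const, smul_eq_mul]
  calc (univ.filter (H v)).card * D ^ (s - 1) ≤ D * D ^ (s - 1) := Nat.mul_le_mul_right _ (hD v)
    _ = D ^ s := by rw [← pow_succ']; congr 1; omega

include hsymm hD in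
theorem bad_fix (hs : 2 ≤ s) (hD1 : 1 ≤ D) (hK : K * s ^ 2 * D ≤ n) (i : Fin s) (v : Fin n) :
    K * (univ.filter fun x : Tup n s => x i = v ∧ ¬ Good H K D x).card ≤ 2 * n ^ (s - 1) := by
  classical
  set M := univ.filter fun x : Tup n s => x i = v ∧ K * D ^ s < (Zs H x).card * n ^ (s - 1) with hM
  have hsub : (univ.filter fun x : Tup n s => x i = v ∧ ¬ Good H K D x) ⊆
      (univ.filter fun x : Tup n s => x i = v ∧ ∃ j k, j ≠ k ∧ H (x j) (x k)) ∪ M := by
    intro x hx
    rw [mem_filter] at hx
    rw [mem_union]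
    by_cases h : ∃ j k, j ≠ k ∧ H (x j) (x k)
    · left; rw [mem_filter]; exact ⟨mem_univ _, hx.2.1, h⟩
    · right
      rw [hM, mem_filter]
      refine ⟨mem_univ _, hx.2.1, ?_⟩
      by_contra hc
      apply hx.2.2
      push Not at h hc
      exact ⟨h, hc⟩
  have h1 : K * (s ^ 2 * (D * n ^ (s - 2))) ≤ n ^ (s - 1) := by
    calc K * (s ^ 2 * (D * n ^ (s - 2))) = (K * s ^ 2 * D) * n ^ (s - 2) := by ring
      _ ≤ n * n ^ (s - 2) := Nat.mul_le_mul_right _ hK
      _ = n ^ (s - 1) := by rw [← pow_succ']; congr 1; omega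
  have h2 : K * M.card ≤ n ^ (s - 1) := by
    have h3 : M.card * (K * D ^ s) ≤ D ^ s * n ^ (s - 1) := by
      calc M.card * (K * D ^ s) = ∑ _x ∈ M, K * D ^ s := by rw [sum_const, smul_eq_mul]
        _ ≤ ∑ x ∈ M, (Zs H x).card * n ^ (s - 1) := by
            apply sum_le_sum
            intro x hx
            rw [hM, mem_filter] at hx
            exact hx.2.2.le
        _ = (∑ x ∈ M, (Zs H x).card) * n ^ (s - 1) := by rw [sum_mul]
        _ ≤ (∑ x ∈ univ.filter (fun x : Tup n s => x i = v), (Zs H x).card) * n ^ (s - 1) := by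
            apply Nat.mul_le_mul_right
            apply sum_le_sum_of_subset
            intro x hx
            rw [hM, mem_filter] at hx
            rw [mem_filter]
            exact ⟨mem_univ _, hx.2.1⟩
        _ ≤ D ^ s * n ^ (s - 1) := Nat.mul_le_mul_right _ (zsum H D hsymm hD i v)
    have h4 : D ^ s * (K * M.card) ≤ D ^ s * n ^ (s - 1) := by
      calc D ^ s * (K * M.card) = M.card * (K * D ^ s) := by ring
        _ ≤ _ := h3
    exact Nat.le_of_mul_le_mul_left h4 (pow_pos hD1 _)
  calc K * (univ.filter fun x : Tup n s => x i = v ∧ ¬ Good H K D x).card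
      ≤ K * ((univ.filter fun x : Tup n s => x i = v ∧ ∃ j k, j ≠ k ∧ H (x j) (x k)).card +
          M.card) := Nat.mul_le_mul_left _ ((card_le_card hsub).trans (card_union_le _ _))
    _ ≤ K * (s ^ 2 * (D * n ^ (s - 2)) + M.card) :=
        Nat.mul_le_mul_left _ (Nat.add_le_add_right (nonclique_count H D hsymm hD i v) _)
    _ = K * (s ^ 2 * (D * n ^ (s - 2))) + K * M.card := by ring
    _ ≤ n ^ (s - 1) + n ^ (s - 1) := Nat.add_le_add h1 h2
    _ = 2 * n ^ (s - 1) := by ring

include hsymm hD in
theorem bad_all (hs : 2 ≤ s) (hD1 : 1 ≤ D) (hK : K * s ^ 2 * D ≤ n) :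
    K * (univ.filter fun x : Tup n s => ¬ Good H K D x).card ≤ 2 * n ^ s := by
  classical
  have i : Fin s := ⟨0, by omega⟩
  have h1 := card_eq_sum_card_fiberwise (s := univ.filter fun x : Tup n s => ¬ Good H K D x)
    (t := (univ : Finset (Fin n))) (f := fun x => x i) (fun _ _ => by simp)
  rw [h1, mul_sum]
  calc ∑ v : Fin n, K * ((univ.filter fun x : Tup n s => ¬ Good H K D x).filter
        (fun x => x i = v)).card ≤ ∑ _v : Fin n, 2 * n ^ (s - 1) := by
        apply sum_le_sum
        intro v _
        refine le_trans (Nat.mul_le_mul_left _ (card_le_card ?_))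
          (bad_fix H K D hsymm hD hs hD1 hK i v)
        intro x hx
        rw [mem_filter, mem_filter] at hx
        rw [mem_filter]
        exact ⟨mem_univ _, hx.2, hx.1.2⟩
    _ = 2 * (n * n ^ (s - 1)) := by
        rw [sum_const, card_univ, Fintype.card_fin, smul_eq_mul]; ring
    _ = 2 * n ^ s := by rw [← pow_succ']; congr 2; omega

include hsymm hD in
theorem bad_value (hs : 2 ≤ s) (hD1 : 1 ≤ D) (hK : K * s ^ 2 * D ≤ n) (v : Fin n) :
    K * (univ.filter fun x : Tup n s => ¬ Good H K D x ∧ ∃ i, x i = v).card ≤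
      2 * (s * n ^ (s - 1)) := by
  classical
  have hsub : (univ.filter fun x : Tup n s => ¬ Good H K D x ∧ ∃ i, x i = v) ⊆
      (univ : Finset (Fin s)).biUnion
        (fun i => univ.filter fun x : Tup n s => x i = v ∧ ¬ Good H K D x) := by
    intro x hx
    rw [mem_filter] at hx
    obtain ⟨-, hx1, i, hi⟩ := hx
    rw [mem_biUnion]
    exact ⟨i, mem_univ _, by rw [mem_filter]; exact ⟨mem_univ _, hi, hx1⟩⟩
  calc K * (univ.filter fun x : Tup n s => ¬ Good H K D x ∧ ∃ i, x i = v).card
      ≤ K * ∑ i : Fin s, (univ.filter fun x : Tup n s => x i = v ∧ ¬ Good H K D x).card :=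
        Nat.mul_le_mul_left _ ((card_le_card hsub).trans card_biUnion_le)
    _ = ∑ i : Fin s, K * (univ.filter fun x : Tup n s => x i = v ∧ ¬ Good H K D x).card := by
        rw [mul_sum]
    _ ≤ ∑ _i : Fin s, 2 * n ^ (s - 1) :=
        sum_le_sum fun i _ => bad_fix H K D hsymm hD hs hD1 hK i v
    _ = 2 * (s * n ^ (s - 1)) := by
        rw [sum_const, card_univ, Fintype.card_fin, smul_eq_mul]; ring

theorem value_count (v : Fin n) :
    (univ.filter fun y : Tup n s => ∃ i, y i = v).card ≤ s * n ^ (s - 1) := by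
  classical
  have hsub : (univ.filter fun x : Tup n s => ∃ i, x i = v) ⊆
      (univ : Finset (Fin s)).biUnion (fun i => univ.filter fun x : Tup n s => x i = v) := by
    intro x hx
    rw [mem_filter] at hx
    obtain ⟨-, i, hi⟩ := hx
    rw [mem_biUnion]
    exact ⟨i, mem_univ _, by rw [mem_filter]; exact ⟨mem_univ _, hi⟩⟩
  refine (card_le_card hsub).trans (card_biUnion_le.trans ?_)
  rw [sum_congr rfl (fun i _ => card_fix i v), sum_const, card_univ, Fintype.card_fin, smul_eq_mul]

/-- pairs of good tuples with all cross pairs in relation, the `i`-th entry of the first being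
`v` -/
theorem cross_fix (K' : ℕ) (hn : 0 < n) (hs : 1 ≤ s) (hK' : K ^ s * D ^ (s * s) * K' ≤ n ^ (s * s - 1))
    (i : Fin s) (v : Fin n) :
    K' * (univ.filter fun p : Tup n s × Tup n s =>
      p.1 i = v ∧ Good H K D p.1 ∧ Cross H p.1 p.2).card ≤ n ^ (2 * s - 2) := by
  classical
  set A := univ.filter fun x : Tup n s => x i = v ∧ Good H K D x with hA
  have h1 : (univ.filter fun p : Tup n s × Tup n s =>
      p.1 i = v ∧ Good H K D p.1 ∧ Cross H p.1 p.2).card ≤ ∑ x ∈ A, (Zs H x).card ^ s := by
    have h2 := card_eq_sum_card_fiberwise (s := univ.filter fun p : Tup n s × Tup n s =>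
      p.1 i = v ∧ Good H K D p.1 ∧ Cross H p.1 p.2) (t := A) (f := fun p => p.1) (by
        intro p hp
        rw [mem_coe, mem_filter] at hp
        rw [mem_coe, hA, mem_filter]
        exact ⟨mem_univ _, hp.2.1, hp.2.2.1⟩)
    rw [h2]
    apply sum_le_sum
    intro x _
    have h3 : (Fintype.piFinset (fun _ : Fin s => Zs H x)).card = (Zs H x).card ^ s := by
      rw [Fintype.card_piFinset]; simp
    rw [← h3]
    apply card_le_card_of_injOn (fun p => p.2)
    · intro p hp
      rw [mem_coe, mem_filter, mem_filter] at hp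
      rw [mem_coe, Fintype.mem_piFinset]
      intro j
      rw [Zs, mem_filter]
      refine ⟨mem_univ _, fun l => ?_⟩
      rw [← hp.2]
      exact hp.1.2.2.2 l j
    · intro p hp p' hp' h
      rw [mem_coe, mem_filter] at hp hp'
      exact Prod.ext (hp.2.trans hp'.2.symm) h
  have h4 : ∀ x ∈ A, (Zs H x).card ^ s * n ^ ((s - 1) * s) ≤ K ^ s * D ^ (s * s) := by
    intro x hx
    rw [hA, mem_filter] at hx
    have := Nat.pow_le_pow_left hx.2.2.2 s
    calc (Zs H x).card ^ s * n ^ ((s - 1) * s) = ((Zs H x).card * n ^ (s - 1)) ^ s := by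
          rw [mul_pow, ← pow_mul]
      _ ≤ (K * D ^ s) ^ s := this
      _ = K ^ s * D ^ (s * s) := by rw [mul_pow, ← pow_mul]
  have h5 : A.card ≤ n ^ (s - 1) := by
    rw [← card_fix i v]
    apply card_le_card
    intro x hx
    rw [hA, mem_filter] at hx
    rw [mem_filter]
    exact ⟨mem_univ _, hx.2.1⟩
  have h6 : (K' * (univ.filter fun p : Tup n s × Tup n s =>
      p.1 i = v ∧ Good H K D p.1 ∧ Cross H p.1 p.2).card) * n ^ ((s - 1) * s) ≤
      n ^ (2 * s - 2) * n ^ ((s - 1) * s) := by
    calc (K' * (univ.filter fun p : Tup n s × Tup n s =>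
      p.1 i = v ∧ Good H K D p.1 ∧ Cross H p.1 p.2).card) * n ^ ((s - 1) * s)
        ≤ (K' * ∑ x ∈ A, (Zs H x).card ^ s) * n ^ ((s - 1) * s) :=
          Nat.mul_le_mul_right _ (Nat.mul_le_mul_left _ h1)
      _ = K' * ∑ x ∈ A, (Zs H x).card ^ s * n ^ ((s - 1) * s) := by rw [mul_assoc, sum_mul]
      _ ≤ K' * ∑ _x ∈ A, K ^ s * D ^ (s * s) := Nat.mul_le_mul_left _ (sum_le_sum h4)
      _ = A.card * (K ^ s * D ^ (s * s) * K') := by rw [sum_const, smul_eq_mul]; ring
      _ ≤ n ^ (s - 1) * n ^ (s * s - 1) := Nat.mul_le_mul h5 hK'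
      _ = n ^ (2 * s - 2) * n ^ ((s - 1) * s) := by
          rw [← pow_add, ← pow_add]
          congr 1
          obtain ⟨m, rfl⟩ : ∃ m, s = m + 1 := ⟨s - 1, by omega⟩
          have : (m + 1) * (m + 1) = (m + 1 - 1) * (m + 1) + (m + 1) := by
            simp; ring
          omega
  exact Nat.le_of_mul_le_mul_right h6 (pow_pos hn _)

include hsymm in
theorem cross_value (K' : ℕ) (hn : 0 < n) (hs : 1 ≤ s)
    (hK' : K ^ s * D ^ (s * s) * K' ≤ n ^ (s * s - 1)) (v : Fin n) :
    K' * (univ.filter fun p : Tup n s × Tup n s =>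
      (Good H K D p.1 ∧ Good H K D p.2 ∧ Cross H p.1 p.2) ∧
        ((∃ i, p.1 i = v) ∨ ∃ i, p.2 i = v)).card ≤ 2 * (s * n ^ (2 * s - 2)) := by
  classical
  set P : Fin s → Finset (Tup n s × Tup n s) := fun i => univ.filter fun p : Tup n s × Tup n s =>
      p.1 i = v ∧ Good H K D p.1 ∧ Cross H p.1 p.2 with hP
  have hsub : (univ.filter fun p : Tup n s × Tup n s =>
      (Good H K D p.1 ∧ Good H K D p.2 ∧ Cross H p.1 p.2) ∧
        ((∃ i, p.1 i = v) ∨ ∃ i, p.2 i = v)) ⊆
      (univ : Finset (Fin s)).biUnion P ∪ (univ : Finset (Fin s)).biUnion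
        (fun i => (P i).image Prod.swap) := by
    intro p hp
    rw [mem_filter] at hp
    obtain ⟨-, ⟨h1, h2, h3⟩, ⟨i, hi⟩ | ⟨i, hi⟩⟩ := hp
    · rw [mem_union, mem_biUnion]
      left
      exact ⟨i, mem_univ _, by rw [hP]; simp only; rw [mem_filter]; exact ⟨mem_univ _, hi, h1, h3⟩⟩
    · rw [mem_union, mem_biUnion, mem_biUnion]
      right
      refine ⟨i, mem_univ _, ?_⟩
      rw [mem_image]
      refine ⟨(p.2, p.1), ?_, rfl⟩
      rw [hP]; simp only; rw [mem_filter]
      exact ⟨mem_univ _, hi, h2, fun a b => hsymm _ _ (h3 b a)⟩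
  have h1 : ∀ i, K' * (P i).card ≤ n ^ (2 * s - 2) := fun i =>
    cross_fix H K D K' hn hs hK' i v
  calc K' * (univ.filter fun p : Tup n s × Tup n s =>
      (Good H K D p.1 ∧ Good H K D p.2 ∧ Cross H p.1 p.2) ∧
        ((∃ i, p.1 i = v) ∨ ∃ i, p.2 i = v)).card
      ≤ K' * (∑ i, (P i).card + ∑ i, (P i).card) := by
        apply Nat.mul_le_mul_left
        refine (card_le_card hsub).trans ((card_union_le _ _).trans (Nat.add_le_add
          card_biUnion_le (card_biUnion_le.trans ?_)))
        exact sum_le_sum fun i _ => card_image_le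
    _ = ∑ i, K' * (P i).card + ∑ i, K' * (P i).card := by rw [mul_add, mul_sum]
    _ ≤ ∑ _i : Fin s, n ^ (2 * s - 2) + ∑ _i : Fin s, n ^ (2 * s - 2) :=
        Nat.add_le_add (sum_le_sum fun i _ => h1 i) (sum_le_sum fun i _ => h1 i)
    _ = 2 * (s * n ^ (2 * s - 2)) := by
        rw [sum_const, card_univ, Fintype.card_fin, smul_eq_mul]; ring

theorem cross_all (K' : ℕ) (hn : 0 < n) (hs : 1 ≤ s)
    (hK' : K ^ s * D ^ (s * s) * K' ≤ n ^ (s * s - 1)) :
    K' * (univ.filter fun p : Tup n s × Tup n s =>
      Good H K D p.1 ∧ Good H K D p.2 ∧ Cross H p.1 p.2).card ≤ n ^ (2 * s - 1) := by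
  classical
  have i : Fin s := ⟨0, by omega⟩
  have h1 := card_eq_sum_card_fiberwise (s := univ.filter fun p : Tup n s × Tup n s =>
      Good H K D p.1 ∧ Good H K D p.2 ∧ Cross H p.1 p.2)
    (t := (univ : Finset (Fin n))) (f := fun p => p.1 i) (fun _ _ => by simp)
  rw [h1, mul_sum]
  calc ∑ v : Fin n, K' * ((univ.filter fun p : Tup n s × Tup n s =>
        Good H K D p.1 ∧ Good H K D p.2 ∧ Cross H p.1 p.2).filter
        (fun p => p.1 i = v)).card ≤ ∑ _v : Fin n, n ^ (2 * s - 2) := by
        apply sum_le_sum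
        intro v _
        refine le_trans (Nat.mul_le_mul_left _ (card_le_card ?_))
          (cross_fix H K D K' hn hs hK' i v)
        intro p hp
        rw [mem_filter, mem_filter] at hp
        rw [mem_filter]
        exact ⟨mem_univ _, hp.2, hp.1.2.1, hp.1.2.2.2⟩
    _ = n ^ (2 * s - 1) := by
        rw [sum_const, card_univ, Fintype.card_fin, smul_eq_mul, ← pow_succ']
        congr 1
        omega

end Rel

end Pool.Agent.H65.CF
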