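import Pool.Agent.H65.CF.Sharp

/-! The least Hadwiger number of graphs with `n` vertices and few non-neighbours per vertex. -/

set_option autoImplicit false

namespace Pool.Agent.H65.CF

open Finset Filter Topology

theorem no_big_minor {n : ℕ} (G : SimpleGraph (Fin n)) : ¬ HasCliqueMinor G (n + 1) := by
  rintro ⟨f, h1, h2, -⟩
  have hne : ∀ i, ∃ a, a ∈ f i := fun i => by
    obtain ⟨a, ha⟩ := (h1 i).nonempty
    exact ⟨a, ha⟩
  choose g hg using hne
  have hinj : Function.Injective g := by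
    intro i j hij
    by_contra hne
    exact Set.disjoint_left.1 (h2 i j hne) (hg i) (hij ▸ hg j)
  have := Fintype.card_le_of_injective g hinj
  rw [Fintype.card_fin, Fintype.card_fin] at this
  omega

theorem nonNbr_top {V : Type} (x : V) : (NonNbr (⊤ : SimpleGraph V) x).ncard = 0 := by
  have : NonNbr (⊤ : SimpleGraph V) x = ∅ := by
    rw [Set.eq_empty_iff_forall_notMem]
    intro y hy
    exact hy.2 ((SimpleGraph.top_adj _ _).2 hy.1)
  rw [this, Set.ncard_empty]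

/-- The least order `h` of a largest complete minor of a graph with `n` vertices in which every
vertex has at most `d` non-neighbours: the least `h` such that some graph of this kind has no
`K_{h+1}` minor. -/
noncomputable def leastHadwiger (n : ℕ) (d : ℝ) : ℕ :=
  sInf {h : ℕ | ∃ G : SimpleGraph (Fin n),
    (∀ x, ((NonNbr G x).ncard : ℝ) ≤ d) ∧ ¬ HasCliqueMinor G (h + 1)}

theorem leastHadwiger_le {n : ℕ} {d : ℝ} (G : SimpleGraph (Fin n))
    (hG : ∀ x, ((NonNbr G x).ncard : ℝ) ≤ d) (h : ℕ) (hh : ¬ HasCliqueMinor G (h + 1)) :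
    leastHadwiger n d ≤ h :=
  Nat.sInf_le ⟨G, hG, hh⟩

theorem leastHadwiger_le_self {n : ℕ} {d : ℝ} (hd : 0 ≤ d) : leastHadwiger n d ≤ n :=
  leastHadwiger_le ⊤ (fun x => by rw [nonNbr_top]; simpa using hd) n (no_big_minor _)

theorem le_leastHadwiger {n : ℕ} {d : ℝ} (hd : 0 ≤ d) (k : ℕ)
    (h : ∀ G : SimpleGraph (Fin n), (∀ x, ((NonNbr G x).ncard : ℝ) ≤ d) → HasCliqueMinor G k) :
    k ≤ leastHadwiger n d := by
  have hne : {h : ℕ | ∃ G : SimpleGraph (Fin n),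
      (∀ x, ((NonNbr G x).ncard : ℝ) ≤ d) ∧ ¬ HasCliqueMinor G (h + 1)}.Nonempty :=
    ⟨n, ⊤, fun x => by rw [nonNbr_top]; simpa using hd, no_big_minor _⟩
  obtain ⟨G, hG, hm⟩ := Nat.sInf_mem hne
  by_contra hlt
  push Not at hlt
  exact hm ((h G hG).mono hlt)

/-- The lower bound, for large `n`. -/
theorem eventually_minor (s : ℕ) (hs : 1 ≤ s) (δ : ℝ) (hδ : 1 < δ * (s : ℝ) ^ 2) :
    ∀ᶠ n : ℕ in atTop, ∀ G : SimpleGraph (Fin n),
      (∀ x, ((NonNbr G x).ncard : ℝ) ≤ (n : ℝ) ^ (1 - δ)) → HasCliqueFamily G s (n / s) := by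
  have h1 : Tendsto (fun n : ℕ => (n : ℝ) ^ (δ * (s : ℝ) ^ 2 - 1)) atTop atTop :=
    (tendsto_rpow_atTop (by linarith)).comp tendsto_natCast_atTop_atTop
  filter_upwards [h1.eventually_ge_atTop (((2 : ℝ) ^ (8 * s + 4)) ^ (s ^ 2)),
    eventually_ge_atTop 1] with n hn hn1 G hG
  have hn0 : (0 : ℝ) < n := by exact_mod_cast hn1
  have hs2 : 1 ≤ s ^ 2 := Nat.one_le_pow _ _ (by omega)
  have := cliqueFamily G s ⌊(n : ℝ) ^ (1 - δ)⌋₊ hs (fun x => Nat.le_floor (hG x)) (by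
    rw [Fintype.card_fin]
    have h2 : ((⌊(n : ℝ) ^ (1 - δ)⌋₊ : ℕ) : ℝ) ≤ (n : ℝ) ^ (1 - δ) :=
      Nat.floor_le (Real.rpow_nonneg hn0.le _)
    have h3 : (((2 ^ (8 * s + 4) * ⌊(n : ℝ) ^ (1 - δ)⌋₊) ^ (s ^ 2) : ℕ) : ℝ) ≤
        ((n ^ (s ^ 2 - 1) : ℕ) : ℝ) := by
      push_cast
      rw [mul_pow]
      calc ((2 : ℝ) ^ (8 * s + 4)) ^ (s ^ 2) * ((⌊(n : ℝ) ^ (1 - δ)⌋₊ : ℕ) : ℝ) ^ (s ^ 2)
          ≤ (n : ℝ) ^ (δ * (s : ℝ) ^ 2 - 1) * ((n : ℝ) ^ (1 - δ)) ^ (s ^ 2) := by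
            apply mul_le_mul hn _ (by positivity) (by positivity)
            exact pow_le_pow_left₀ (by positivity) h2 _
        _ = (n : ℝ) ^ (s ^ 2 - 1) := by
            rw [← Real.rpow_natCast ((n : ℝ) ^ (1 - δ)), ← Real.rpow_mul hn0.le,
              ← Real.rpow_add hn0, ← Real.rpow_natCast (n : ℝ) (s ^ 2 - 1)]
            congr 1
            rw [Nat.cast_sub hs2]
            push_cast
            ring
    exact_mod_cast h3)
  rw [Fintype.card_fin] at this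
  exact this

/-- The upper bound, for large `n`. -/
theorem eventually_no_minor (s : ℕ) (hs : 1 ≤ s) (δ : ℝ) (hδ : δ * (s : ℝ) ^ 2 < 1) (ε : ℝ)
    (hε : 0 < ε) :
    ∀ᶠ n : ℕ in atTop, ∃ G : SimpleGraph (Fin n),
      (∀ x, ((NonNbr G x).ncard : ℝ) ≤ (n : ℝ) ^ (1 - δ)) ∧
      ∀ m : ℕ, (1 / ((s : ℝ) + 1) + ε) * n ≤ m → ¬ HasCliqueMinor G m := by
  have hsR : (1 : ℝ) ≤ s := by exact_mod_cast hs
  set β : ℝ := 1 / (s : ℝ) ^ 2 with hβ
  have hβ0 : 0 < β := by positivity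
  have hβ1 : β ≤ 1 := by
    rw [hβ, div_le_one (by positivity)]
    exact one_le_pow₀ hsR
  have hδβ : δ < β := by
    rw [hβ, lt_div_iff₀ (by positivity)]
    exact hδ
  set η : ℝ := min ε 1 with hη
  have hη0 : 0 < η := lt_min hε one_pos
  have hη1 : η ≤ 1 := min_le_right _ _
  have h1 : (fun n : ℕ => Real.log n) =o[atTop] (fun n : ℕ => (n : ℝ) ^ (β - δ)) :=
    (isLittleO_log_rpow_atTop (by linarith)).comp_tendsto tendsto_natCast_atTop_atTop
  have h2 : (fun n : ℕ => Real.log n) =o[atTop] (fun n : ℕ => (n : ℝ)) :=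
    Real.isLittleO_log_id_atTop.comp_tendsto tendsto_natCast_atTop_atTop
  have hC : 0 < 192 * s / η := by positivity
  have h1' := h1.bound (show (0 : ℝ) < 1 / (192 * s / η) by positivity)
  have h2' := h2.bound (show (0 : ℝ) < η / (16 * s) by positivity)
  filter_upwards [h1', h2', eventually_ge_atTop 3] with n hn1 hn2 hn3
  have hn0 : (0 : ℝ) < n := by exact_mod_cast (show 0 < n by omega)
  have hn3' : (3 : ℝ) ≤ n := by exact_mod_cast hn3
  have hL1 : 1 ≤ Real.log n := by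
    rw [Real.le_log_iff_exp_le hn0]
    have := Real.exp_one_lt_d9
    linarith
  rw [Real.norm_of_nonneg (by linarith), Real.norm_of_nonneg (by positivity)] at hn1 hn2
  obtain ⟨G, hG, hm⟩ := Sh.sharp s hs η hη0 hη1 n hn3 (by
    have h3 := mul_le_mul_of_nonneg_left hn2 (show (0 : ℝ) ≤ 16 * s by positivity)
    have h4 : (16 * (s : ℝ)) * (η / (16 * s) * n) = η * n := by field_simp
    linarith)
  refine ⟨G, fun x => (hG x).trans ?_, fun m h => hm m (le_trans ?_ h)⟩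
  · rw [← hβ]
    have h5 : Real.log n ^ β ≤ Real.log n := by
      calc Real.log n ^ β ≤ Real.log n ^ (1 : ℝ) := Real.rpow_le_rpow_of_exponent_le hL1 hβ1
        _ = Real.log n := Real.rpow_one _
    have h6 : (192 * s / η) * Real.log n ≤ (n : ℝ) ^ (β - δ) := by
      have h7 := mul_le_mul_of_nonneg_left hn1 hC.le
      rw [← mul_assoc, mul_one_div_cancel hC.ne', one_mul] at h7
      exact h7
    calc (192 * s / η) * (n : ℝ) ^ (1 - β) * Real.log n ^ β
        ≤ (192 * s / η) * (n : ℝ) ^ (1 - β) * Real.log n := by gcongr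
      _ = ((192 * s / η) * Real.log n) * (n : ℝ) ^ (1 - β) := by ring
      _ ≤ (n : ℝ) ^ (β - δ) * (n : ℝ) ^ (1 - β) := by gcongr
      _ = (n : ℝ) ^ (1 - δ) := by
          rw [← Real.rpow_add hn0]
          congr 1
          ring
  · have : η ≤ ε := min_le_left _ _
    gcongr

/-- **The limit law.** -/
theorem limit (δ : ℝ) (hδ : 0 < δ) (hne : ∀ r : ℕ, δ * (r : ℝ) ^ 2 ≠ 1) :
    Tendsto (fun n : ℕ => (leastHadwiger n ((n : ℝ) ^ (1 - δ)) : ℝ) / n) atTop
      (𝓝 (1 / (⌈1 / Real.sqrt δ⌉₊ : ℝ))) := by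
  obtain ⟨s, hs⟩ : ∃ s, s = ⌈1 / Real.sqrt δ⌉₊ := ⟨_, rfl⟩
  rw [← hs]
  have hsq : 0 < Real.sqrt δ := Real.sqrt_pos.2 hδ
  have hsq2 : Real.sqrt δ ^ 2 = δ := Real.sq_sqrt hδ.le
  have hs1 : 1 ≤ s := by
    rw [hs, Nat.one_le_ceil_iff]
    positivity
  have hsR : (1 : ℝ) ≤ s := by exact_mod_cast hs1
  have hδs : 1 < δ * (s : ℝ) ^ 2 := by
    have h1 : 1 / Real.sqrt δ ≤ s := by rw [hs]; exact Nat.le_ceil _
    rw [div_le_iff₀ hsq] at h1
    have h2 : 1 ≤ δ * (s : ℝ) ^ 2 := by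
      calc (1 : ℝ) = 1 ^ 2 := by norm_num
        _ ≤ ((s : ℝ) * Real.sqrt δ) ^ 2 := pow_le_pow_left₀ (by norm_num) h1 2
        _ = δ * (s : ℝ) ^ 2 := by rw [mul_pow, hsq2]; ring
    exact lt_of_le_of_ne h2 (Ne.symm (hne s))
  have hδs' : δ * ((s : ℝ) - 1) ^ 2 < 1 := by
    have h1 : (s : ℝ) < 1 / Real.sqrt δ + 1 := by
      rw [hs]
      exact Nat.ceil_lt_add_one (by positivity)
    have h2 : ((s : ℝ) - 1) * Real.sqrt δ < 1 := by
      rw [← lt_div_iff₀ hsq]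
      linarith
    calc δ * ((s : ℝ) - 1) ^ 2 = (((s : ℝ) - 1) * Real.sqrt δ) ^ 2 := by
          rw [mul_pow, hsq2]; ring
      _ < 1 ^ 2 := by
          apply pow_lt_pow_left₀ h2 _ (by norm_num)
          have : 0 ≤ (s : ℝ) - 1 := by linarith
          positivity
      _ = 1 := by norm_num
  have hlow : ∀ᶠ n : ℕ in atTop, 1 / (s : ℝ) - 1 / n ≤
      (leastHadwiger n ((n : ℝ) ^ (1 - δ)) : ℝ) / n := by
    filter_upwards [eventually_minor s hs1 δ hδs, eventually_ge_atTop 1] with n hn hn1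
    have hn0 : (0 : ℝ) < n := by exact_mod_cast hn1
    have h1 : n / s ≤ leastHadwiger n ((n : ℝ) ^ (1 - δ)) :=
      le_leastHadwiger (Real.rpow_nonneg hn0.le _) _ (fun G hG => (hn G hG).minor hs1)
    have h2 : (n : ℝ) / s - 1 ≤ ((n / s : ℕ) : ℝ) := by
      have h3 : n < s * (n / s + 1) := by
        have := Nat.lt_mul_div_succ n (show 0 < s by omega)
        exact this
      have h4 : (n : ℝ) < s * (((n / s : ℕ) : ℝ) + 1) := by exact_mod_cast h3
      rw [sub_le_iff_le_add, div_le_iff₀ (by linarith)]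
      linarith
    have h5 : ((n / s : ℕ) : ℝ) ≤ leastHadwiger n ((n : ℝ) ^ (1 - δ)) := by exact_mod_cast h1
    rw [le_div_iff₀ hn0]
    have h6 : (1 / (s : ℝ) - 1 / n) * n = (n : ℝ) / s - 1 := by
      field_simp
    linarith
  have hup : ∀ ε : ℝ, 0 < ε → ∀ᶠ n : ℕ in atTop,
      (leastHadwiger n ((n : ℝ) ^ (1 - δ)) : ℝ) / n ≤ 1 / (s : ℝ) + ε := by
    intro ε hε
    rcases Nat.lt_or_ge s 2 with hs2 | hs2
    · have hs' : s = 1 := by omega
      filter_upwards [eventually_ge_atTop 1] with n hn1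
      have hn0 : (0 : ℝ) < n := by exact_mod_cast hn1
      have h1 : leastHadwiger n ((n : ℝ) ^ (1 - δ)) ≤ n :=
        leastHadwiger_le_self (Real.rpow_nonneg hn0.le _)
      have h2 : (leastHadwiger n ((n : ℝ) ^ (1 - δ)) : ℝ) ≤ n := by exact_mod_cast h1
      rw [hs', div_le_iff₀ hn0]
      push_cast
      nlinarith
    · obtain ⟨r, hr⟩ : ∃ r, s = r + 1 := ⟨s - 1, by omega⟩
      have hr1 : 1 ≤ r := by omega
      have hrs : (s : ℝ) - 1 = r := by rw [hr]; push_cast; ring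
      rw [hrs] at hδs'
      filter_upwards [eventually_no_minor r hr1 δ hδs' ε hε, eventually_ge_atTop 1] with n hn hn1
      have hn0 : (0 : ℝ) < n := by exact_mod_cast hn1
      obtain ⟨G, hG, hm⟩ := hn
      have hrs' : (r : ℝ) + 1 = s := by rw [hr]; push_cast; ring
      rw [hrs'] at hm
      have hpos : 0 ≤ (1 / (s : ℝ) + ε) * n := by positivity
      have h1 : leastHadwiger n ((n : ℝ) ^ (1 - δ)) ≤ ⌊(1 / (s : ℝ) + ε) * n⌋₊ := by
        apply leastHadwiger_le G hG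
        apply hm
        push_cast
        exact (Nat.lt_floor_add_one _).le
      have h2 : (leastHadwiger n ((n : ℝ) ^ (1 - δ)) : ℝ) ≤ (1 / (s : ℝ) + ε) * n := by
        calc (leastHadwiger n ((n : ℝ) ^ (1 - δ)) : ℝ) ≤ (⌊(1 / (s : ℝ) + ε) * n⌋₊ : ℝ) := by
              exact_mod_cast h1
          _ ≤ _ := Nat.floor_le hpos
      rw [div_le_iff₀ hn0]
      exact h2
  rw [tendsto_order]
  constructor
  · intro a ha
    have h1 : Tendsto (fun n : ℕ => 1 / (s : ℝ) - 1 / (n : ℝ)) atTop (𝓝 (1 / (s : ℝ) - 0)) :=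
      tendsto_const_nhds.sub tendsto_one_div_atTop_nhds_zero_nat
    rw [sub_zero] at h1
    filter_upwards [hlow, h1.eventually_const_lt ha] with n hn1 hn2
    exact lt_of_lt_of_le hn2 hn1
  · intro b hb
    filter_upwards [hup ((b - 1 / (s : ℝ)) / 2) (by linarith)] with n hn
    linarith

end Pool.Agent.H65.CF
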