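import Pool.Agent.H65.CF.Count
import Pool.Graph.R_pool_sql_team_39128cda.Lib.helper7_.PermLLL

/-! A random ordering of the vertices, cut into blocks of `s` consecutive vertices. -/

set_option autoImplicit false

namespace Pool.Agent.H65.CF

open Finset
open Pool.Agent.Lib.helper7.PermLLL

theorem exists_append {α : Type*} {s : ℕ} (f g : Fin s → α) (a : α) :
    (∃ l, Fin.append f g l = a) ↔ (∃ i, f i = a) ∨ ∃ i, g i = a := by
  constructor
  · rintro ⟨l, hl⟩
    refine Fin.addCases (fun i hi => ?_) (fun i hi => ?_) l hl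
    · rw [Fin.append_left] at hi; exact Or.inl ⟨i, hi⟩
    · rw [Fin.append_right] at hi; exact Or.inr ⟨i, hi⟩
  · rintro (⟨i, hi⟩ | ⟨i, hi⟩)
    · exact ⟨Fin.castAdd s i, by rw [Fin.append_left]; exact hi⟩
    · exact ⟨Fin.natAdd s i, by rw [Fin.append_right]; exact hi⟩

theorem inl_mem_supp {n s : ℕ} (f g x y : Tup n s) (p : Fin n) :
    (Sum.inl p : Fin n ⊕ Fin n) ∈ supp ((Fin.append f g, Fin.append x y) : Ev n (s + s)) ↔
      (∃ i, f i = p) ∨ ∃ i, g i = p := by
  rw [← exists_append]
  simp [supp]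

theorem inr_mem_supp {n s : ℕ} (f g x y : Tup n s) (p : Fin n) :
    (Sum.inr p : Fin n ⊕ Fin n) ∈ supp ((Fin.append f g, Fin.append x y) : Ev n (s + s)) ↔
      (∃ i, x i = p) ∨ ∃ i, y i = p := by
  rw [← exists_append]
  simp [supp]

section Blk

variable {n s N : ℕ} (hN : N * s ≤ n)

/-- the positions of the `b`-th block -/
def blk (b : Fin N) : Tup n s := fun i => ⟨b * s + i, by
  have h1 := b.isLt
  have h2 := i.isLt
  have h3 : (b.val + 1) * s ≤ N * s := Nat.mul_le_mul_right s h1
  have h4 : (b.val + 1) * s = b * s + s := by ring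
  omega⟩

theorem blk_div (b : Fin N) (i : Fin s) : (blk hN b i).val / s = b.val := by
  have h2 := i.isLt
  have hs : 0 < s := i.pos
  simp only [blk]
  rw [Nat.mul_comm, Nat.mul_add_div hs, Nat.div_eq_of_lt h2, Nat.add_zero]

theorem blk_inj (b : Fin N) : Function.Injective (blk hN b) := by
  intro i j h
  simp only [blk, Fin.mk.injEq] at h
  ext
  omega

theorem blk_ne (b b' : Fin N) (h : b ≠ b') (i j : Fin s) : blk hN b i ≠ blk hN b' j := by
  intro he
  apply h
  ext
  rw [← blk_div hN b i, ← blk_div hN b' j, he]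

end Blk

section Main

variable {n s N : ℕ} (H : Fin n → Fin n → Prop) [DecidableRel H] (K D K' : ℕ)
variable (hsymm : ∀ u v, H u v → H v u) (hD : ∀ v, (univ.filter (H v)).card ≤ D)
variable (hN : N * s ≤ n) (nx : Fin N → Fin N)

/-- Indices of the events: a block contains a bad tuple. -/
def I1 (N : ℕ) : Finset (Fin N × (Tup n s × Tup n s)) := univ.filter fun q =>
  ¬ Good H K D q.2.1 ∧ Function.Injective (Fin.append q.2.1 q.2.2)

/-- Indices of the events: two blocks contain good tuples without edges between them. -/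
def I2 (N : ℕ) : Finset ((Fin N × Fin N) × (Tup n s × Tup n s)) := univ.filter fun q =>
  q.1.1 ≠ q.1.2 ∧ (Good H K D q.2.1 ∧ Good H K D q.2.2 ∧ Cross H q.2.1 q.2.2) ∧
    Function.Injective (Fin.append q.2.1 q.2.2)

/-- the events of the first kind -/
def ev1 (q : Fin N × (Tup n s × Tup n s)) : Ev n (s + s) :=
  (Fin.append (blk hN q.1) (blk hN (nx q.1)), Fin.append q.2.1 q.2.2)

/-- the events of the second kind -/
def ev2 (q : (Fin N × Fin N) × (Tup n s × Tup n s)) : Ev n (s + s) :=
  (Fin.append (blk hN q.1.1) (blk hN q.1.2), Fin.append q.2.1 q.2.2)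

/-- the forbidden events -/
def EE : Finset (Ev n (s + s)) := (I1 H K D N).image (ev1 hN nx) ∪ (I2 H K D N).image (ev2 hN)

theorem EE_filter (z : Fin n ⊕ Fin n) :
    ((EE H K D hN nx).filter fun e => z ∈ supp e).card ≤
      ((I1 H K D N).filter fun q => z ∈ supp (ev1 hN nx q)).card +
      ((I2 H K D N).filter fun q => z ∈ supp (ev2 hN q)).card := by
  classical
  rw [EE, filter_union]
  refine (card_union_le _ _).trans (Nat.add_le_add ?_ ?_)
  · rw [filter_image]
    exact card_image_le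
  · rw [filter_image]
    exact card_image_le

theorem card_val_le (c : ℕ) (f : Fin N → Fin N) (hf : Function.Injective f) :
    (univ.filter fun b : Fin N => (f b).val = c).card ≤ 1 := by
  rw [card_le_one]
  intro a ha b hb
  rw [mem_filter] at ha hb
  apply hf
  ext
  rw [ha.2, hb.2]

variable (hnx : Function.Injective nx)

include hsymm hD hnx in
theorem pos_bound (hs : 2 ≤ s) (hD1 : 1 ≤ D) (hn : 0 < n) (hK : K * s ^ 2 * D ≤ n)
    (hK' : K ^ s * D ^ (s * s) * K' ≤ n ^ (s * s - 1)) (T : ℕ) (h8 : K = 8 * T) (h4 : K' = 4 * T)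
    (p : Fin n) :
    T * (((I1 H K D N).filter fun q => Sum.inl p ∈ supp (ev1 hN nx q)).card +
      ((I2 H K D N).filter fun q => Sum.inl p ∈ supp (ev2 hN q)).card) ≤ n ^ (2 * s) := by
  classical
  set B := (univ.filter fun x : Tup n s => ¬ Good H K D x) with hB
  set C := (univ.filter fun p : Tup n s × Tup n s =>
      Good H K D p.1 ∧ Good H K D p.2 ∧ Cross H p.1 p.2) with hC
  have hBc : K * B.card ≤ 2 * n ^ s := bad_all H K D hsymm hD hs hD1 hK
  have hCc : K' * C.card ≤ n ^ (2 * s - 1) := cross_all H K D K' hn (by omega) hK'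
  have h1 : ((I1 H K D N).filter fun q => Sum.inl p ∈ supp (ev1 hN nx q)).card ≤
      2 * (B.card * n ^ s) := by
    have hsub : ((I1 H K D N).filter fun q => Sum.inl p ∈ supp (ev1 hN nx q)) ⊆
        ((univ.filter fun b : Fin N => (id b).val = p.val / s) ∪
          (univ.filter fun b : Fin N => (nx b).val = p.val / s)) ×ˢ (B ×ˢ univ) := by
      intro q hq
      rw [mem_filter, I1, mem_filter, ev1, inl_mem_supp] at hq
      rw [mem_product, mem_union, mem_filter, mem_filter, mem_product, hB, mem_filter]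
      refine ⟨?_, ⟨mem_univ _, hq.1.2.1⟩, mem_univ _⟩
      rcases hq.2 with ⟨i, hi⟩ | ⟨i, hi⟩
      · left; refine ⟨mem_univ _, ?_⟩
        rw [← hi, blk_div]; rfl
      · right; refine ⟨mem_univ _, ?_⟩
        rw [← hi, blk_div]
    refine (card_le_card hsub).trans ?_
    rw [card_product, card_product, card_univ, Fintype.card_fun, Fintype.card_fin, Fintype.card_fin]
    apply Nat.mul_le_mul_right
    exact (card_union_le _ _).trans (Nat.add_le_add (card_val_le _ _ Function.injective_id)
      (card_val_le _ _ hnx))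
  have h2 : ((I2 H K D N).filter fun q => Sum.inl p ∈ supp (ev2 hN q)).card ≤
      (2 * N) * C.card := by
    have hsub : ((I2 H K D N).filter fun q => Sum.inl p ∈ supp (ev2 hN q)) ⊆
        (((univ.filter fun b : Fin N => (id b).val = p.val / s) ×ˢ univ) ∪
          (univ ×ˢ (univ.filter fun b : Fin N => (id b).val = p.val / s))) ×ˢ C := by
      intro q hq
      rw [mem_filter, I2, mem_filter, ev2, inl_mem_supp] at hq
      rw [mem_product, mem_union, mem_product, mem_product, mem_filter, mem_filter, hC, mem_filter]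
      refine ⟨?_, mem_univ _, hq.1.2.2.1⟩
      rcases hq.2 with ⟨i, hi⟩ | ⟨i, hi⟩
      · left; refine ⟨⟨mem_univ _, ?_⟩, mem_univ _⟩
        rw [← hi, blk_div]; rfl
      · right; refine ⟨mem_univ _, mem_univ _, ?_⟩
        rw [← hi, blk_div]; rfl
    refine (card_le_card hsub).trans ?_
    rw [card_product]
    apply Nat.mul_le_mul_right
    refine (card_union_le _ _).trans ?_
    rw [card_product, card_product, card_univ, Fintype.card_fin]
    have := card_val_le (N := N) (p.val / s) id Function.injective_id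
    nlinarith
  have hN2 : 2 * N ≤ n := by nlinarith
  have e1 : n ^ s * n ^ s = n ^ (2 * s) := by rw [← pow_add]; congr 1; omega
  have e2 : n * n ^ (2 * s - 1) = n ^ (2 * s) := by rw [← pow_succ']; congr 1; omega
  have k1 : 8 * (T * (2 * (B.card * n ^ s))) ≤ 4 * n ^ (2 * s) := by
    calc 8 * (T * (2 * (B.card * n ^ s))) = 2 * (K * B.card) * n ^ s := by rw [h8]; ring
      _ ≤ 2 * (2 * n ^ s) * n ^ s := by gcongr
      _ = 4 * (n ^ s * n ^ s) := by ring
      _ = 4 * n ^ (2 * s) := by rw [e1]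
  have k2 : 4 * (T * ((2 * N) * C.card)) ≤ n ^ (2 * s) := by
    calc 4 * (T * ((2 * N) * C.card)) = (2 * N) * (K' * C.card) := by rw [h4]; ring
      _ ≤ n * n ^ (2 * s - 1) := Nat.mul_le_mul hN2 hCc
      _ = n ^ (2 * s) := e2
  have k3 : T * (((I1 H K D N).filter fun q => Sum.inl p ∈ supp (ev1 hN nx q)).card +
      ((I2 H K D N).filter fun q => Sum.inl p ∈ supp (ev2 hN q)).card) ≤
      T * (2 * (B.card * n ^ s) + (2 * N) * C.card) :=
    Nat.mul_le_mul_left _ (Nat.add_le_add h1 h2)
  refine k3.trans ?_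
  rw [mul_add]
  generalize T * (2 * (B.card * n ^ s)) = X at k1 ⊢
  generalize T * ((2 * N) * C.card) = Y at k2 ⊢
  omega

include hsymm hD in
theorem val_bound (hs : 2 ≤ s) (hD1 : 1 ≤ D) (hn : 0 < n) (hK : K * s ^ 2 * D ≤ n)
    (hK' : K ^ s * D ^ (s * s) * K' ≤ n ^ (s * s - 1)) (T : ℕ) (h8 : K = 8 * T) (h4 : K' = 4 * T)
    (p : Fin n) :
    T * (((I1 H K D N).filter fun q => Sum.inr p ∈ supp (ev1 hN nx q)).card +
      ((I2 H K D N).filter fun q => Sum.inr p ∈ supp (ev2 hN q)).card) ≤ n ^ (2 * s) := by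
  classical
  set B := (univ.filter fun x : Tup n s => ¬ Good H K D x) with hB
  set Bp := (univ.filter fun x : Tup n s => ¬ Good H K D x ∧ ∃ i, x i = p) with hBp
  set Y := (univ.filter fun y : Tup n s => ∃ i, y i = p) with hY
  set Cp := (univ.filter fun q : Tup n s × Tup n s =>
      (Good H K D q.1 ∧ Good H K D q.2 ∧ Cross H q.1 q.2) ∧
        ((∃ i, q.1 i = p) ∨ ∃ i, q.2 i = p)) with hCp
  have hBc : K * B.card ≤ 2 * n ^ s := bad_all H K D hsymm hD hs hD1 hK
  have hBpc : K * Bp.card ≤ 2 * (s * n ^ (s - 1)) := bad_value H K D hsymm hD hs hD1 hK p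
  have hYc : Y.card ≤ s * n ^ (s - 1) := value_count p
  have hCpc : K' * Cp.card ≤ 2 * (s * n ^ (2 * s - 2)) :=
    cross_value H K D hsymm K' hn (by omega) hK' p
  have h1 : ((I1 H K D N).filter fun q => Sum.inr p ∈ supp (ev1 hN nx q)).card ≤
      N * (Bp.card * n ^ s + B.card * Y.card) := by
    have hsub : ((I1 H K D N).filter fun q => Sum.inr p ∈ supp (ev1 hN nx q)) ⊆
        univ ×ˢ ((Bp ×ˢ univ) ∪ (B ×ˢ Y)) := by
      intro q hq
      rw [mem_filter, I1, mem_filter, ev1, inr_mem_supp] at hq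
      rw [mem_product, mem_union, mem_product, mem_product, hBp, hB, hY, mem_filter, mem_filter,
        mem_filter]
      refine ⟨mem_univ _, ?_⟩
      rcases hq.2 with h | h
      · left; exact ⟨⟨mem_univ _, hq.1.2.1, h⟩, mem_univ _⟩
      · right; exact ⟨⟨mem_univ _, hq.1.2.1⟩, mem_univ _, h⟩
    refine (card_le_card hsub).trans ?_
    rw [card_product, card_univ, Fintype.card_fin]
    apply Nat.mul_le_mul_left
    refine (card_union_le _ _).trans ?_
    rw [card_product, card_product, card_univ, Fintype.card_fun, Fintype.card_fin, Fintype.card_fin]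
  have h2 : ((I2 H K D N).filter fun q => Sum.inr p ∈ supp (ev2 hN q)).card ≤
      (N * N) * Cp.card := by
    have hsub : ((I2 H K D N).filter fun q => Sum.inr p ∈ supp (ev2 hN q)) ⊆ univ ×ˢ Cp := by
      intro q hq
      rw [mem_filter, I2, mem_filter, ev2, inr_mem_supp] at hq
      rw [mem_product, hCp, mem_filter]
      exact ⟨mem_univ _, mem_univ _, hq.1.2.2.1, hq.2⟩
    refine (card_le_card hsub).trans ?_
    rw [card_product, card_univ, Fintype.card_prod, Fintype.card_fin]
  have hN2 : 2 * N ≤ n := by nlinarith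
  have e1 : n ^ s * n ^ (s - 1) * n = n ^ (2 * s) := by
    rw [← pow_add, ← pow_succ]; congr 1; omega
  have e2 : n ^ (2 * s - 2) * n * n = n ^ (2 * s) := by
    rw [← pow_succ, ← pow_succ]; congr 1; omega
  have k1 : 8 * (T * (N * (Bp.card * n ^ s + B.card * Y.card))) ≤ 4 * n ^ (2 * s) := by
    calc 8 * (T * (N * (Bp.card * n ^ s + B.card * Y.card)))
        = N * ((K * Bp.card) * n ^ s + (K * B.card) * Y.card) := by rw [h8]; ring
      _ ≤ N * ((2 * (s * n ^ (s - 1))) * n ^ s + (2 * n ^ s) * (s * n ^ (s - 1))) := by gcongr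
      _ = 4 * (n ^ s * n ^ (s - 1) * (N * s)) := by ring
      _ ≤ 4 * (n ^ s * n ^ (s - 1) * n) := by gcongr
      _ = 4 * n ^ (2 * s) := by rw [e1]
  have k2 : 4 * (T * ((N * N) * Cp.card)) ≤ n ^ (2 * s) := by
    calc 4 * (T * ((N * N) * Cp.card)) = (N * N) * (K' * Cp.card) := by rw [h4]; ring
      _ ≤ (N * N) * (2 * (s * n ^ (2 * s - 2))) := by gcongr
      _ = n ^ (2 * s - 2) * (N * s) * (2 * N) := by ring
      _ ≤ n ^ (2 * s - 2) * n * n := by gcongr
      _ = n ^ (2 * s) := e2
  have k3 : T * (((I1 H K D N).filter fun q => Sum.inr p ∈ supp (ev1 hN nx q)).card +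
      ((I2 H K D N).filter fun q => Sum.inr p ∈ supp (ev2 hN q)).card) ≤
      T * (N * (Bp.card * n ^ s + B.card * Y.card) + (N * N) * Cp.card) :=
    Nat.mul_le_mul_left _ (Nat.add_le_add h1 h2)
  refine k3.trans ?_
  rw [mul_add]
  generalize T * (N * (Bp.card * n ^ s + B.card * Y.card)) = X at k1 ⊢
  generalize T * ((N * N) * Cp.card) = Z at k2 ⊢
  omega

theorem occ_append {π : Equiv.Perm (Fin n)} (f g : Tup n s) :
    occ π ((Fin.append f g, Fin.append (fun i => π (f i)) (fun i => π (g i))) : Ev n (s + s)) := by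
  intro l
  refine Fin.addCases (fun i => ?_) (fun i => ?_) l
  · simp only [Fin.append_left]
  · simp only [Fin.append_right]

theorem descFactorial_bound (h4s : 4 * s ≤ n) (hs : 1 ≤ s) :
    n ^ (2 * s) ≤ 2 ^ (2 * s) * n.descFactorial (s + s) := by
  have h1 := Nat.pow_sub_le_descFactorial n (s + s)
  calc n ^ (2 * s) ≤ (2 * (n + 1 - (s + s))) ^ (2 * s) := Nat.pow_le_pow_left (by omega) _
    _ = 2 ^ (2 * s) * (n + 1 - (s + s)) ^ (s + s) := by
        rw [mul_pow, two_mul s]
    _ ≤ _ := Nat.mul_le_mul_left _ h1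

include hsymm hD in
/-- There is an ordering of the vertices such that all blocks are good and no two blocks are
completely in relation. -/
theorem exists_perm (hs : 2 ≤ s) (hD1 : 1 ≤ D) (hnx : Function.Injective nx)
    (hne : ∀ b, nx b ≠ b) (h4s : 4 * s ≤ n)
    (hK : 2 ^ (6 * s + 4) * s ^ 2 * D ≤ n)
    (hK' : (2 ^ (6 * s + 4)) ^ s * D ^ (s * s) * 2 ^ (6 * s + 3) ≤ n ^ (s * s - 1)) :
    ∃ π : Equiv.Perm (Fin n),
      (∀ b : Fin N, ∀ i j, i ≠ j → ¬ H (π (blk hN b i)) (π (blk hN b j))) ∧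
      (∀ b b' : Fin N, b ≠ b' → ∃ i j, ¬ H (π (blk hN b i)) (π (blk hN b' j))) := by
  classical
  have hn : 0 < n := by omega
  set K := 2 ^ (6 * s + 4) with hKdef
  set T := 2 ^ (6 * s + 1) with hT
  have h8 : K = 8 * T := by
    rw [hKdef, hT, show (8 : ℕ) = 2 ^ 3 by norm_num, ← pow_add]; congr 1; omega
  have h4 : 2 ^ (6 * s + 3) = 4 * T := by
    rw [hT, show (4 : ℕ) = 2 ^ 2 by norm_num, ← pow_add]; congr 1; omega
  set Dd := n.descFactorial (s + s) / 2 ^ (4 * s + 1) with hDd
  obtain ⟨π, hπ⟩ := perm_lll (EE H K D hN nx) Dd (by omega : 0 < s + s) (by omega : s + s ≤ n)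
    (by
      intro e he
      rw [EE, mem_union, mem_image, mem_image] at he
      rcases he with ⟨q, hq, rfl⟩ | ⟨q, hq, rfl⟩
      · rw [I1, mem_filter] at hq
        refine ⟨?_, hq.2.2⟩
        rw [ev1]
        simp only
        rw [Fin.append_injective_iff]
        exact ⟨blk_inj hN _, blk_inj hN _, fun i j => blk_ne hN _ _ (hne _).symm i j⟩
      · rw [I2, mem_filter] at hq
        refine ⟨?_, hq.2.2.2⟩
        rw [ev2]
        simp only
        rw [Fin.append_injective_iff]
        exact ⟨blk_inj hN _, blk_inj hN _, fun i j => blk_ne hN _ _ hq.2.1 i j⟩)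
    (by
      intro z
      have hz : T * ((EE H K D hN nx).filter fun e => z ∈ supp e).card ≤ n ^ (2 * s) := by
        refine (Nat.mul_le_mul_left _ (EE_filter H K D hN nx z)).trans ?_
        rcases z with p | p
        · exact pos_bound H K D _ hsymm hD hN nx hnx hs hD1 hn hK hK' T h8 h4 p
        · exact val_bound H K D _ hsymm hD hN nx hs hD1 hn hK hK' T h8 h4 p
      rw [hDd, Nat.le_div_iff_mul_le (by positivity)]
      have h5 := hz.trans (descFactorial_bound h4s (by omega))
      have h6 : 2 ^ (2 * s) * (((EE H K D hN nx).filter fun e => z ∈ supp e).card *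
          2 ^ (4 * s + 1)) ≤ 2 ^ (2 * s) * n.descFactorial (s + s) := by
        refine le_trans (le_of_eq ?_) h5
        rw [hT, show 6 * s + 1 = 2 * s + (4 * s + 1) by ring, pow_add]
        ring
      exact Nat.le_of_mul_le_mul_left h6 (by positivity))
    (by
      have h7 : 2 * (Dd * 2 ^ (2 * (s + s))) = Dd * 2 ^ (4 * s + 1) := by
        rw [show 4 * s + 1 = 2 * (s + s) + 1 by ring, pow_succ]; ring
      rw [h7, hDd]
      exact Nat.div_mul_le_self _ _)
  have hinj : ∀ b b' : Fin N, b ≠ b' → Function.Injective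
      (Fin.append (fun i => π (blk hN b i)) (fun i => π (blk hN b' i))) := by
    intro b b' hbb
    rw [Fin.append_injective_iff]
    refine ⟨π.injective.comp (blk_inj hN _), π.injective.comp (blk_inj hN _), fun i j h => ?_⟩
    exact blk_ne hN _ _ hbb i j (π.injective h)
  have hgood : ∀ b : Fin N, Good H K D (fun i => π (blk hN b i)) := by
    intro b
    by_contra hb
    refine hπ (ev1 hN nx (b, (fun i => π (blk hN b i), fun i => π (blk hN (nx b) i)))) ?_ ?_
    · rw [EE, mem_union]
      left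
      apply mem_image_of_mem
      rw [I1, mem_filter]
      exact ⟨mem_univ _, hb, hinj _ _ (hne b).symm⟩
    · exact occ_append _ _
  refine ⟨π, fun b i j hij => (hgood b).1 i j hij, fun b b' hbb => ?_⟩
  by_contra hc
  push Not at hc
  refine hπ (ev2 hN ((b, b'), (fun i => π (blk hN b i), fun i => π (blk hN b' i)))) ?_ ?_
  · rw [EE, mem_union]
    right
    apply mem_image_of_mem
    rw [I2, mem_filter]
    exact ⟨mem_univ _, hbb, ⟨hgood b, hgood b', hc⟩, hinj _ _ hbb⟩
  · exact occ_append _ _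

end Main

end Pool.Agent.H65.CF
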