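import Pool.Agent.H65.CF.Lll

/-! Graphs with few non-neighbours per vertex have `⌊n/s⌋` disjoint cliques with `s` vertices, any
two of them joined by an edge. -/

set_option autoImplicit false

namespace Pool.Agent.H65.CF

open Finset

/-- `K_k` is a minor of `G`: there are `k` pairwise disjoint vertex sets, each inducing a connected
subgraph, any two of them joined by an edge of `G`. -/
def HasCliqueMinor {V : Type} (G : SimpleGraph V) (k : ℕ) : Prop :=
  ∃ f : Fin k → Set V,
    (∀ i, (G.induce (f i)).Connected) ∧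
    (∀ i j, i ≠ j → Disjoint (f i) (f j)) ∧
    (∀ i j, i ≠ j → ∃ u ∈ f i, ∃ v ∈ f j, G.Adj u v)

/-- The set of non-neighbours of `x` (without `x` itself). -/
def NonNbr {V : Type} (G : SimpleGraph V) (x : V) : Set V := {y | x ≠ y ∧ ¬ G.Adj x y}

/-- There are `k` pairwise disjoint cliques of `G` with `s` vertices each, any two of them joined by
an edge of `G`. -/
def HasCliqueFamily {V : Type} (G : SimpleGraph V) (s k : ℕ) : Prop :=
  ∃ f : Fin k → Finset V,
    (∀ i, (f i).card = s ∧ G.IsClique (f i : Set V)) ∧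
    (∀ i j, i ≠ j → Disjoint (f i) (f j)) ∧
    (∀ i j, i ≠ j → ∃ u ∈ f i, ∃ v ∈ f j, G.Adj u v)

theorem clique_connected {V : Type} (G : SimpleGraph V) (S : Set V) (hne : S.Nonempty)
    (h : G.IsClique S) : (G.induce S).Connected := by
  obtain ⟨a, ha⟩ := hne
  haveI : Nonempty S := ⟨⟨a, ha⟩⟩
  refine ⟨fun u v => ?_⟩
  by_cases huv : u = v
  · rw [huv]
  · apply SimpleGraph.Adj.reachable
    rw [SimpleGraph.comap_adj]
    exact h u.2 v.2 (fun he => huv (Subtype.ext he))

theorem HasCliqueFamily.minor {V : Type} {G : SimpleGraph V} {s k : ℕ} (hs : 1 ≤ s)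
    (h : HasCliqueFamily G s k) : HasCliqueMinor G k := by
  obtain ⟨f, h1, h2, h3⟩ := h
  refine ⟨fun i => (f i : Set V), fun i => ?_, fun i j hij => ?_, fun i j hij => ?_⟩
  · apply clique_connected G _ _ (h1 i).2
    have : (f i).Nonempty := by
      rw [← card_pos, (h1 i).1]; omega
    exact_mod_cast this
  · exact Finset.disjoint_coe.2 (h2 i j hij)
  · obtain ⟨u, hu, v, hv, huv⟩ := h3 i j hij
    exact ⟨u, by exact_mod_cast hu, v, by exact_mod_cast hv, huv⟩

theorem HasCliqueMinor.mono {V : Type} {G : SimpleGraph V} {k l : ℕ} (h : HasCliqueMinor G k)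
    (hl : l ≤ k) : HasCliqueMinor G l := by
  obtain ⟨f, h1, h2, h3⟩ := h
  exact ⟨fun i => f (Fin.castLE hl i), fun i => h1 _,
    fun i j hij => h2 _ _ (fun he => hij (Fin.castLE_injective hl he)),
    fun i j hij => h3 _ _ (fun he => hij (Fin.castLE_injective hl he))⟩

theorem family_of_perm {V : Type} (G : SimpleGraph V) {n s N : ℕ} (e : V ≃ Fin n)
    (hN : N * s ≤ n) (π : Equiv.Perm (Fin n))
    (h1 : ∀ b : Fin N, ∀ i j, i ≠ j → ¬ (e.symm (π (blk hN b i)) ∈
      NonNbr G (e.symm (π (blk hN b j)))))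
    (h2 : ∀ b b' : Fin N, b ≠ b' → ∃ i j, ¬ (e.symm (π (blk hN b i)) ∈
      NonNbr G (e.symm (π (blk hN b' j))))) : HasCliqueFamily G s N := by
  classical
  have hinj : ∀ b, Function.Injective (fun i => e.symm (π (blk hN b i))) := fun b =>
    e.symm.injective.comp (π.injective.comp (blk_inj hN b))
  refine ⟨fun b => univ.image (fun i => e.symm (π (blk hN b i))), fun b => ⟨?_, ?_⟩, ?_, ?_⟩
  · rw [card_image_of_injective _ (hinj b), card_univ, Fintype.card_fin]
  · intro u hu v hv huv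
    rw [mem_coe, mem_image] at hu hv
    obtain ⟨i, -, rfl⟩ := hu
    obtain ⟨j, -, rfl⟩ := hv
    have hij : j ≠ i := by rintro rfl; exact huv rfl
    have := h1 b j i hij
    rw [NonNbr, Set.mem_ofPred_eq, not_and, not_not] at this
    exact this huv
  · intro b b' hbb
    rw [Finset.disjoint_left]
    intro u hu hu'
    rw [mem_image] at hu hu'
    obtain ⟨i, -, hi⟩ := hu
    obtain ⟨j, -, hj⟩ := hu'
    have := π.injective (e.symm.injective (hi.trans hj.symm))
    exact blk_ne hN b b' hbb i j this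
  · intro b b' hbb
    obtain ⟨i, j, h⟩ := h2 b b' hbb
    refine ⟨_, mem_image_of_mem _ (mem_univ i), _, mem_image_of_mem _ (mem_univ j), ?_⟩
    rw [NonNbr, Set.mem_ofPred_eq, not_and, not_not] at h
    refine (h ?_).symm
    intro he
    exact blk_ne hN b b' hbb i j (π.injective (e.symm.injective he)).symm

theorem finRotate_ne {N : ℕ} (hN : 2 ≤ N) (b : Fin N) : finRotate N b ≠ b := by
  obtain ⟨m, rfl⟩ : ∃ m, N = m + 1 := ⟨N - 1, by omega⟩
  rw [finRotate_apply]
  intro h
  rw [add_eq_left, Fin.one_eq_zero_iff] at h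
  omega

theorem sq_le_pow (s : ℕ) : s ^ 2 ≤ 2 ^ (2 * s) := by
  have h := (Nat.lt_two_pow_self (n := s)).le
  calc s ^ 2 ≤ (2 ^ s) ^ 2 := Nat.pow_le_pow_left h 2
    _ = 2 ^ (2 * s) := by rw [← pow_mul, mul_comm]

/-- **Disjoint cliques of the same size, any two joined by an edge.** -/
theorem cliqueFamily {V : Type} [Fintype V] (G : SimpleGraph V) (s D : ℕ) (hs : 1 ≤ s)
    (hD : ∀ x, (NonNbr G x).ncard ≤ D)
    (h : (2 ^ (8 * s + 4) * D) ^ (s ^ 2) ≤ Fintype.card V ^ (s ^ 2 - 1)) :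
    HasCliqueFamily G s (Fintype.card V / s) := by
  classical
  set n := Fintype.card V with hn
  have e : V ≃ Fin n := Fintype.equivFin V
  have hN : n / s * s ≤ n := Nat.div_mul_le_self _ _
  rcases Nat.eq_zero_or_pos D with rfl | hD1
  · have hempty : ∀ x y, y ∉ NonNbr G x := by
      intro x y hy
      have h1 := hD x
      have h2 : (NonNbr G x).ncard = 0 := by omega
      rw [Set.ncard_eq_zero (Set.toFinite _)] at h2
      rw [h2] at hy
      exact hy
    refine family_of_perm G e hN 1 (fun b i j _ => hempty _ _) (fun b b' _ => ?_)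
    exact ⟨⟨0, hs⟩, ⟨0, hs⟩, hempty _ _⟩
  rcases Nat.lt_or_ge s 2 with hs1 | hs2
  · exfalso
    have : s = 1 := by omega
    subst this
    norm_num at h
    omega
  have hsq : s ^ 2 = (s ^ 2 - 1) + 1 := by
    have : 1 ≤ s ^ 2 := Nat.one_le_pow _ _ (by omega)
    omega
  have hsq3 : 3 ≤ s ^ 2 - 1 := by
    have : 2 ^ 2 ≤ s ^ 2 := Nat.pow_le_pow_left hs2 2
    omega
  have hn0 : 0 < n := by
    rcases Nat.eq_zero_or_pos n with h0 | h0
    · exfalso
      rw [h0, zero_pow (by omega)] at h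
      have : 0 < (2 ^ (8 * s + 4) * D) ^ (s ^ 2) := by positivity
      omega
    · exact h0
  have hbig : 2 ^ (8 * s + 4) * D ≤ n := by
    have h1 : (2 ^ (8 * s + 4) * D) ^ (s ^ 2) ≤ n ^ (s ^ 2) := by
      refine h.trans ?_
      exact Nat.pow_le_pow_right hn0 (by omega)
    exact (Nat.pow_le_pow_iff_left (by omega)).1 h1
  have hK : 2 ^ (6 * s + 4) * s ^ 2 * D ≤ n := by
    refine le_trans ?_ hbig
    apply Nat.mul_le_mul_right
    calc 2 ^ (6 * s + 4) * s ^ 2 ≤ 2 ^ (6 * s + 4) * 2 ^ (2 * s) :=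
          Nat.mul_le_mul_left _ (sq_le_pow s)
      _ = 2 ^ (8 * s + 4) := by rw [← pow_add]; congr 1; ring
  have hK' : (2 ^ (6 * s + 4)) ^ s * D ^ (s * s) * 2 ^ (6 * s + 3) ≤ n ^ (s * s - 1) := by
    rw [← sq s]
    refine le_trans ?_ h
    rw [mul_pow]
    calc (2 ^ (6 * s + 4)) ^ s * D ^ (s ^ 2) * 2 ^ (6 * s + 3)
        = 2 ^ ((6 * s + 4) * s + (6 * s + 3)) * D ^ (s ^ 2) := by
          rw [← pow_mul, pow_add]; ring
      _ ≤ 2 ^ ((8 * s + 4) * s ^ 2) * D ^ (s ^ 2) := by
          apply Nat.mul_le_mul_right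
          apply Nat.pow_le_pow_right (by norm_num)
          nlinarith [mul_le_mul hs2 (le_refl (s ^ 2)) (by positivity) (by positivity)]
      _ = (2 ^ (8 * s + 4)) ^ (s ^ 2) * D ^ (s ^ 2) := by rw [← pow_mul]
  have h4s : 4 * s ≤ n := by
    have h1 := (Nat.lt_two_pow_self (n := s)).le
    calc 4 * s ≤ 4 * 2 ^ s := Nat.mul_le_mul_left _ h1
      _ = 2 ^ (s + 2) := by rw [pow_add]; ring
      _ ≤ 2 ^ (8 * s + 4) := Nat.pow_le_pow_right (by norm_num) (by omega)
      _ ≤ 2 ^ (8 * s + 4) * D := Nat.le_mul_of_pos_right _ hD1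
      _ ≤ n := hbig
  have hN2 : 2 ≤ n / s := by
    rw [Nat.le_div_iff_mul_le (by omega)]
    omega
  set H : Fin n → Fin n → Prop := fun a b => e.symm a ∈ NonNbr G (e.symm b) with hH
  have hsymm : ∀ u v, H u v → H v u := by
    intro u v huv
    rw [hH] at huv ⊢
    simp only [NonNbr, Set.mem_ofPred_eq] at huv ⊢
    exact ⟨huv.1.symm, fun hc => huv.2 hc.symm⟩
  have hdeg : ∀ v, (univ.filter (H v)).card ≤ D := by
    intro v
    refine le_trans ?_ (hD (e.symm v))
    rw [← Set.ncard_coe_finset]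
    rw [← Set.ncard_image_of_injective _ e.symm.injective]
    apply Set.ncard_le_ncard _ (Set.toFinite _)
    intro y hy
    obtain ⟨u, hu, rfl⟩ := hy
    rw [mem_coe, mem_filter] at hu
    exact hsymm _ _ hu.2
  obtain ⟨π, h1, h2⟩ := exists_perm H D hsymm hdeg hN (finRotate (n / s)) hs2 hD1
    (Equiv.injective _) (finRotate_ne hN2) h4s hK hK'
  exact family_of_perm G e hN π h1 h2

end Pool.Agent.H65.CF
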