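import Pool.Agent.H65.CF.Main
import Pool.Graph.R_seed8.TH446.HN.Sharp2

/-! Random graphs: graphs in which every vertex has few non-neighbours and which have no large
family of pairwise adjacent sets of at most `s` vertices. -/

set_option autoImplicit false

namespace Pool.Agent.H65.CF.Sh

open Finset
open Pool.Agent.TH446.HN.Sharp (zero_count Indep block Om Ix Ix_card gr nonnbr_lt fact_bound)

section Count

variable {E : Type*} [Fintype E] [DecidableEq E] (q : ℕ)

/-- the number of functions that do not vanish identically on any of some disjoint blocks -/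
theorem avoid {ι : Type*} [DecidableEq ι] (S : Finset ι) (B : ι → Finset E) (d : ℕ)
    (hdis : ∀ i ∈ S, ∀ j ∈ S, i ≠ j → Disjoint (B i) (B j)) (h4 : ∀ i ∈ S, (B i).card ≤ d) :
    ((univ.filter (fun ω : E → Fin (q + 1) => ∀ i ∈ S, ∃ e ∈ B i, ω e ≠ 0)).card : ℝ) ≤
      ((q : ℝ) + 1) ^ Fintype.card E * (1 - 1 / ((q : ℝ) + 1) ^ d) ^ S.card := by
  have hq : (0 : ℝ) < (q : ℝ) + 1 := by positivity
  have hq1 : (1 : ℝ) ≤ (q : ℝ) + 1 := by
    have : (0 : ℝ) ≤ q := by positivity
    linarith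
  induction S using Finset.induction_on with
  | empty =>
    simp only [notMem_empty, false_imp_iff, implies_true, filter_true, card_univ,
      Fintype.card_fun, Fintype.card_fin, card_empty, pow_zero, mul_one]
    push_cast
    rfl
  | insert i S hi ih =>
    have ih' := ih (fun a ha b hb => hdis a (mem_insert_of_mem ha) b (mem_insert_of_mem hb))
      (fun a ha => h4 a (mem_insert_of_mem ha))
    set P : (E → Fin (q + 1)) → Prop := fun ω => ∀ i ∈ S, ∃ e ∈ B i, ω e ≠ 0 with hPdef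
    have hind : Indep q P (B i) := by
      intro ω ω' hoff h j hj
      obtain ⟨e, he, hne⟩ := h j hj
      refine ⟨e, he, ?_⟩
      rw [← hoff e]
      · exact hne
      · intro hei
        have hij : i ≠ j := by rintro rfl; exact hi hj
        exact Finset.disjoint_left.1 (hdis i (mem_insert_self _ _) j (mem_insert_of_mem hj) hij)
          hei he
    have hb := block q P (B i) hind
    have hsplit : ((univ.filter P).card : ℝ) =
        (univ.filter (fun ω : E → Fin (q + 1) => ∀ j ∈ insert i S, ∃ e ∈ B j, ω e ≠ 0)).card +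
        (univ.filter (fun ω => P ω ∧ ∀ e ∈ B i, ω e = 0)).card := by
      have h1 : univ.filter P =
          univ.filter (fun ω : E → Fin (q + 1) => ∀ j ∈ insert i S, ∃ e ∈ B j, ω e ≠ 0) ∪
          univ.filter (fun ω => P ω ∧ ∀ e ∈ B i, ω e = 0) := by
        ext ω
        rw [mem_union, mem_filter, mem_filter, mem_filter]
        constructor
        · rintro ⟨-, h⟩
          by_cases hz : ∀ e ∈ B i, ω e = 0
          · exact Or.inr ⟨mem_univ _, h, hz⟩
          · push Not at hz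
            refine Or.inl ⟨mem_univ _, fun j hj => ?_⟩
            rcases mem_insert.1 hj with rfl | hj
            · exact hz
            · exact h j hj
        · rintro (⟨-, h⟩ | ⟨-, h, -⟩)
          · exact ⟨mem_univ _, fun j hj => h j (mem_insert_of_mem hj)⟩
          · exact ⟨mem_univ _, h⟩
      have h2 : Disjoint
          (univ.filter (fun ω : E → Fin (q + 1) => ∀ j ∈ insert i S, ∃ e ∈ B j, ω e ≠ 0))
          (univ.filter (fun ω => P ω ∧ ∀ e ∈ B i, ω e = 0)) := by
        rw [Finset.disjoint_left]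
        intro ω h1 h2
        rw [mem_filter] at h1 h2
        obtain ⟨e, he, hne⟩ := h1.2 i (mem_insert_self _ _)
        exact hne (h2.2.2 e he)
      rw [h1, card_union_of_disjoint h2]
      push_cast
      rfl
    have h5 : ((q : ℝ) + 1) ^ (B i).card ≤ ((q : ℝ) + 1) ^ d :=
      pow_le_pow_right₀ hq1 (h4 i (mem_insert_self _ _))
    set Z : ℝ := ((univ.filter (fun ω => P ω ∧ ∀ e ∈ B i, ω e = 0)).card : ℝ) with hZ
    set N : ℝ := ((univ.filter P).card : ℝ) with hN
    have hZ0 : 0 ≤ Z := by positivity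
    have h6 : N ≤ ((q : ℝ) + 1) ^ d * Z := hb.trans (mul_le_mul_of_nonneg_right h5 hZ0)
    have h7 : N * (1 / ((q : ℝ) + 1) ^ d) ≤ Z := by
      rw [mul_one_div, div_le_iff₀ (by positivity)]
      linarith
    have h8 : (0 : ℝ) ≤ 1 - 1 / ((q : ℝ) + 1) ^ d := by
      have : 1 / ((q : ℝ) + 1) ^ d ≤ 1 := by
        rw [div_le_one (by positivity)]
        exact one_le_pow₀ hq1
      linarith
    rw [card_insert_of_notMem hi, pow_succ]
    have h9 : ((univ.filter (fun ω : E → Fin (q + 1) => ∀ j ∈ insert i S, ∃ e ∈ B j,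
        ω e ≠ 0)).card : ℝ) ≤ N * (1 - 1 / ((q : ℝ) + 1) ^ d) := by
      have : N * (1 - 1 / ((q : ℝ) + 1) ^ d) = N - N * (1 / ((q : ℝ) + 1) ^ d) := by ring
      rw [this]
      linarith
    refine h9.trans ?_
    calc N * (1 - 1 / ((q : ℝ) + 1) ^ d) ≤
        (((q : ℝ) + 1) ^ Fintype.card E * (1 - 1 / ((q : ℝ) + 1) ^ d) ^ S.card) *
          (1 - 1 / ((q : ℝ) + 1) ^ d) := mul_le_mul_of_nonneg_right ih' h8
      _ = _ := by ring

end Count

section Graph

variable (n q s t k : ℕ)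

/-- families of `t` tuples with `s` entries -/
abbrev Fam := Fin t → Fin s → Fin n

/-- the members of the family are disjoint -/
def Dis (c : Fam n s t) : Prop := ∀ i j, i ≠ j → ∀ u v, c i u ≠ c j v

/-- the edges between two members -/
def Bl (c : Fam n s t) (p : Fin t × Fin t) : Finset (Sym2 (Fin n)) :=
  (univ : Finset (Fin s × Fin s)).image (fun uv => s(c p.1 uv.1, c p.2 uv.2))

theorem Bl_card (c : Fam n s t) (p : Fin t × Fin t) : (Bl n s t c p).card ≤ s ^ 2 := by
  refine card_image_le.trans ?_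
  rw [card_univ, Fintype.card_prod, Fintype.card_fin, sq]

theorem Bl_disj (c : Fam n s t) (hc : Dis n s t c) (p p' : Fin t × Fin t) (hp : p.1 < p.2)
    (hp' : p'.1 < p'.2) (hne : p ≠ p') : Disjoint (Bl n s t c p) (Bl n s t c p') := by
  rw [Finset.disjoint_left]
  intro e he he'
  simp only [Bl, mem_image, mem_univ, true_and] at he he'
  obtain ⟨⟨u, v⟩, rfl⟩ := he
  obtain ⟨⟨u', v'⟩, h⟩ := he'
  simp only [Sym2.eq_iff] at h
  rcases h with ⟨h1, h2⟩ | ⟨h1, h2⟩
  · have e1 : p'.1 = p.1 := by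
      by_contra h'
      exact hc _ _ h' _ _ h1
    have e2 : p'.2 = p.2 := by
      by_contra h'
      exact hc _ _ h' _ _ h2
    exact hne (Prod.ext e1.symm e2.symm)
  · have e1 : p'.1 = p.2 := by
      by_contra h'
      exact hc _ _ h' _ _ h1
    have e2 : p'.2 = p.1 := by
      by_contra h'
      exact hc _ _ h' _ _ h2
    rw [e1, e2] at hp'
    exact lt_asymm hp hp'

/-- Existence of a good sample point. -/
theorem exists_good (h : (n : ℝ) * n.choose k / ((q : ℝ) + 1) ^ k +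
      ((n : ℝ) ^ s) ^ t * (1 - 1 / ((q : ℝ) + 1) ^ (s ^ 2)) ^ (t.choose 2) < 1) :
    ∃ ω : Om n q,
      (∀ (v : Fin n) (T : Finset (Fin n)), v ∉ T → T.card = k → ∃ u ∈ T, ω s(v, u) ≠ 0) ∧
      (∀ c : Fam n s t, Dis n s t c → ∃ p ∈ Ix t, ∀ e ∈ Bl n s t c p, ω e = 0) := by
  classical
  by_contra hcon
  push Not at hcon
  set M : ℝ := ((q : ℝ) + 1) ^ Fintype.card (Sym2 (Fin n)) with hM
  have hM0 : 0 < M := by positivity
  have hq : (0 : ℝ) < (q : ℝ) + 1 := by positivity
  -- first kind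
  set F : Fin n × Finset (Fin n) → Finset (Sym2 (Fin n)) := fun vT => vT.2.image (fun u => s(vT.1, u))
    with hF
  set I : Finset (Fin n × Finset (Fin n)) :=
    ((univ : Finset (Fin n)) ×ˢ (univ : Finset (Fin n)).powersetCard k) with hI
  set J : Finset (Fam n s t) := univ.filter (fun c => Dis n s t c) with hJ
  have hcov : (univ : Finset (Om n q)) ⊆
      I.biUnion (fun vT => univ.filter (fun ω : Om n q => ∀ e ∈ F vT, ω e = 0)) ∪
      J.biUnion (fun c => univ.filter (fun ω : Om n q => ∀ p ∈ Ix t, ∃ e ∈ Bl n s t c p, ω e ≠ 0)) := by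
    intro ω _
    rw [mem_union, mem_biUnion, mem_biUnion]
    by_cases hω : ∀ (v : Fin n) (T : Finset (Fin n)), v ∉ T → T.card = k → ∃ u ∈ T, ω s(v, u) ≠ 0
    · right
      obtain ⟨c, hc, h'⟩ := hcon ω hω
      exact ⟨c, by rw [hJ, mem_filter]; exact ⟨mem_univ _, hc⟩,
        by rw [mem_filter]; exact ⟨mem_univ _, h'⟩⟩
    · left
      push Not at hω
      obtain ⟨v, T, _, hT, h'⟩ := hω
      refine ⟨(v, T), ?_, ?_⟩
      · rw [hI, mem_product, mem_powersetCard]
        exact ⟨mem_univ _, subset_univ _, hT⟩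
      · rw [mem_filter]
        refine ⟨mem_univ _, fun e he => ?_⟩
        simp only [hF, mem_image] at he
        obtain ⟨u, hu, rfl⟩ := he
        exact h' u hu
  have hc1 : ∀ vT ∈ I, ((univ.filter (fun ω : Om n q => ∀ e ∈ F vT, ω e = 0)).card : ℝ) ≤
      M / ((q : ℝ) + 1) ^ k := by
    intro vT hvT
    rw [hI, mem_product, mem_powersetCard] at hvT
    have hz := zero_count q (F vT)
    have hcardF : (F vT).card = k := by
      rw [hF]
      simp only
      rw [card_image_of_injOn, hvT.2.2]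
      intro u _ u' _ h'
      simp only [Sym2.eq_iff] at h'
      rcases h' with ⟨_, h1⟩ | ⟨h1, h2⟩
      · exact h1
      · exact h2.trans h1
    rw [hcardF] at hz
    rw [le_div_iff₀ (by positivity)]
    exact hz.le
  have hc2 : ∀ c ∈ J, ((univ.filter (fun ω : Om n q => ∀ p ∈ Ix t, ∃ e ∈ Bl n s t c p,
      ω e ≠ 0)).card : ℝ) ≤ M * (1 - 1 / ((q : ℝ) + 1) ^ (s ^ 2)) ^ (t.choose 2) := by
    intro c hc
    rw [hJ, mem_filter] at hc
    rw [← Ix_card t]
    have hdj : ∀ p ∈ Ix t, ∀ p' ∈ Ix t, p ≠ p' → Disjoint (Bl n s t c p) (Bl n s t c p') := by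
      intro p hp p' hp' hne
      rw [Ix, mem_filter] at hp hp'
      exact Bl_disj n s t c hc.2 p p' hp.2 hp'.2 hne
    refine le_trans (le_of_eq ?_) (avoid q (Ix t) (Bl n s t c) (s ^ 2) hdj
      (fun p _ => Bl_card n s t c p))
    congr
  have hq1 : (0 : ℝ) ≤ 1 - 1 / ((q : ℝ) + 1) ^ (s ^ 2) := by
    have : 1 / ((q : ℝ) + 1) ^ (s ^ 2) ≤ 1 := by
      rw [div_le_one (by positivity)]
      refine one_le_pow₀ ?_
      have : (0 : ℝ) ≤ q := by positivity
      linarith
    linarith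
  have htot : M ≤ (n : ℝ) * n.choose k * (M / ((q : ℝ) + 1) ^ k) +
      ((n : ℝ) ^ s) ^ t * (M * (1 - 1 / ((q : ℝ) + 1) ^ (s ^ 2)) ^ (t.choose 2)) := by
    have hΩ : ((univ : Finset (Om n q)).card : ℝ) = M := by
      rw [card_univ, Fintype.card_fun, Fintype.card_fin]
      push_cast
      rfl
    rw [← hΩ]
    have h1 := card_le_card hcov
    have h2 := h1.trans (card_union_le _ _)
    have h3 : ((univ : Finset (Om n q)).card : ℝ) ≤
        ((I.biUnion (fun vT => univ.filter (fun ω : Om n q => ∀ e ∈ F vT, ω e = 0))).card : ℝ) +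
        ((J.biUnion (fun c => univ.filter (fun ω : Om n q => ∀ p ∈ Ix t,
          ∃ e ∈ Bl n s t c p, ω e ≠ 0))).card : ℝ) := by
      exact_mod_cast h2
    refine h3.trans (add_le_add ?_ ?_)
    · have h4 : ((I.biUnion (fun vT => univ.filter (fun ω : Om n q => ∀ e ∈ F vT,
          ω e = 0))).card : ℝ) ≤ ∑ vT ∈ I, ((univ.filter (fun ω : Om n q => ∀ e ∈ F vT,
          ω e = 0)).card : ℝ) := by
        exact_mod_cast card_biUnion_le
      refine h4.trans ((sum_le_sum hc1).trans ?_)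
      rw [sum_const, nsmul_eq_mul, hI, card_product, card_univ, Fintype.card_fin,
        card_powersetCard, card_univ, Fintype.card_fin, hΩ]
      push_cast
      rfl
    · have h4 : ((J.biUnion (fun c => univ.filter (fun ω : Om n q => ∀ p ∈ Ix t,
          ∃ e ∈ Bl n s t c p, ω e ≠ 0))).card : ℝ) ≤ ∑ c ∈ J, ((univ.filter (fun ω : Om n q =>
          ∀ p ∈ Ix t, ∃ e ∈ Bl n s t c p, ω e ≠ 0)).card : ℝ) := by
        exact_mod_cast card_biUnion_le
      refine h4.trans ((sum_le_sum hc2).trans ?_)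
      rw [sum_const, nsmul_eq_mul, hΩ]
      refine mul_le_mul_of_nonneg_right ?_ (by positivity)
      have h5 : J.card ≤ (n ^ s) ^ t := by
        refine (card_le_univ J).trans ?_
        rw [Fintype.card_fun, Fintype.card_fun, Fintype.card_fin, Fintype.card_fin,
          Fintype.card_fin]
      exact_mod_cast h5
  have hfin : M ≤ M * ((n : ℝ) * n.choose k / ((q : ℝ) + 1) ^ k +
      ((n : ℝ) ^ s) ^ t * (1 - 1 / ((q : ℝ) + 1) ^ (s ^ 2)) ^ (t.choose 2)) := by
    calc M ≤ _ := htot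
      _ = _ := by ring
  nlinarith

end Graph

/-- A nonempty finite set with at most `s` elements is the range of a function on `Fin s`. -/
theorem exists_tuple {α : Type} [DecidableEq α] (F : Finset α) (s : ℕ) (h1 : 1 ≤ F.card)
    (h2 : F.card ≤ s) : ∃ c : Fin s → α, ∀ a, a ∈ F ↔ ∃ u, c u = a := by
  classical
  have hne : Nonempty F := by
    obtain ⟨a, ha⟩ := card_pos.1 h1
    exact ⟨⟨a, ha⟩⟩
  obtain ⟨f⟩ : Nonempty (F ↪ Fin s) := by
    apply Function.Embedding.nonempty_of_card_le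
    rw [Fintype.card_coe, Fintype.card_fin]
    exact h2
  have hs := Function.invFun_surjective f.injective
  refine ⟨fun u => (Function.invFun f u : F).1, fun a => ⟨fun ha => ?_, ?_⟩⟩
  · obtain ⟨u, hu⟩ := hs ⟨a, ha⟩
    exact ⟨u, by simp only [hu]⟩
  · rintro ⟨u, rfl⟩
    exact (Function.invFun f u : F).2

/-- Families of disjoint nonempty sets: many are small. -/
theorem no_minor (n q s t : ℕ) (hs : 1 ≤ s) (ε : ℝ) (hε : 0 < ε) (ht : (t : ℝ) ≤ ε * n) (ω : Om n q)
    (h : ∀ c : Fam n s t, Dis n s t c → ∃ p ∈ Ix t, ∀ e ∈ Bl n s t c p, ω e = 0)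
    (m : ℕ) (hm : (1 / ((s : ℝ) + 1) + ε) * n ≤ m) :
    ¬ HasCliqueMinor (gr n q ω) m := by
  classical
  rintro ⟨f, h1, h2, h3⟩
  set F : Fin m → Finset (Fin n) := fun i => (f i).toFinset with hF
  have hFmem : ∀ i a, a ∈ F i ↔ a ∈ f i := by
    intro i a
    simp [hF]
  have hne : ∀ i, 1 ≤ (F i).card := by
    intro i
    have := (h1 i).nonempty
    obtain ⟨a, ha⟩ := this
    exact card_pos.2 ⟨a, (hFmem i a).2 ha⟩
  have hFd : ∀ i j, i ≠ j → Disjoint (F i) (F j) := by
    intro i j hij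
    rw [Finset.disjoint_left]
    intro a ha hb
    exact Set.disjoint_left.1 (h2 i j hij) ((hFmem i a).1 ha) ((hFmem j a).1 hb)
  have hsum : ∑ i, (F i).card ≤ n := by
    rw [← card_biUnion (fun i _ j _ hij => hFd i j hij)]
    refine (card_le_univ _).trans ?_
    rw [Fintype.card_fin]
  set S : Finset (Fin m) := univ.filter (fun i => (F i).card ≤ s) with hS
  have hSm : S.card ≤ m := by
    refine (card_le_univ _).trans ?_
    rw [Fintype.card_fin]
  have hsum2 : m + s * (m - S.card) ≤ ∑ i, (F i).card := by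
    have e1 : ∑ i : Fin m, (1 + if i ∈ S then 0 else s) ≤ ∑ i, (F i).card := by
      refine sum_le_sum fun i _ => ?_
      by_cases hi : i ∈ S
      · rw [if_pos hi]; exact hne i
      · rw [if_neg hi]
        rw [hS, mem_filter] at hi
        have : ¬ (F i).card ≤ s := fun h => hi ⟨mem_univ _, h⟩
        omega
    have e2 : ∑ i : Fin m, (1 + if i ∈ S then 0 else s) = m + s * (m - S.card) := by
      rw [sum_add_distrib, sum_const, card_univ, Fintype.card_fin, smul_eq_mul, mul_one]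
      congr 1
      rw [sum_ite, sum_const_zero, zero_add, sum_const, smul_eq_mul, mul_comm]
      congr 1
      have : univ.filter (fun i => i ∉ S) = univ \ S := by
        ext i; simp
      rw [this, card_sdiff_of_subset (subset_univ _), card_univ, Fintype.card_fin]
    rw [← e2]
    exact e1
  have hSt : t ≤ S.card := by
    have h4 : (m : ℝ) + s * ((m : ℝ) - S.card) ≤ n := by
      have h5 : m + s * (m - S.card) ≤ n := hsum2.trans hsum
      have h6 : ((m + s * (m - S.card) : ℕ) : ℝ) ≤ n := by exact_mod_cast h5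
      rw [Nat.cast_add, Nat.cast_mul, Nat.cast_sub hSm] at h6
      exact h6
    have hs0 : (0 : ℝ) < (s : ℝ) := by exact_mod_cast hs
    have h7 : (1 + (s : ℝ) * ε + ε) * n ≤ (s + 1) * m := by
      have h8 := mul_le_mul_of_nonneg_left hm (show (0 : ℝ) ≤ (s : ℝ) + 1 by positivity)
      have h9 : ((s : ℝ) + 1) * ((1 / ((s : ℝ) + 1) + ε) * n) = (1 + (s : ℝ) * ε + ε) * n := by
        field_simp
        ring
      linarith
    have hn0 : (0 : ℝ) ≤ ε * n := by positivity
    have h10 : (s : ℝ) * (ε * n) ≤ s * S.card := by nlinarith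
    have h11 : ε * n ≤ S.card := le_of_mul_le_mul_left h10 hs0
    exact_mod_cast ht.trans h11
  obtain ⟨T, hTS, hTc⟩ := Finset.exists_subset_card_eq hSt
  have e : Fin t ≃ T := by
    have : Fintype.card (Fin t) = Fintype.card T := by
      rw [Fintype.card_fin, Fintype.card_coe, hTc]
    exact Fintype.equivOfCardEq this
  have htup : ∀ i : Fin t, ∃ c : Fin s → Fin n, ∀ a, a ∈ F (e i).1 ↔ ∃ u, c u = a := by
    intro i
    have hi := hTS (e i).2
    rw [hS, mem_filter] at hi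
    exact exists_tuple _ s (hne _) hi.2
  choose c hc using htup
  have hcd : Dis n s t c := by
    intro i j hij u v huv
    have hij' : (e i).1 ≠ (e j).1 := by
      intro h'
      exact hij (e.injective (Subtype.ext h'))
    have := Finset.disjoint_left.1 (hFd _ _ hij') ((hc i (c i u)).2 ⟨u, rfl⟩)
    exact this ((hc j (c i u)).2 ⟨v, huv.symm⟩)
  obtain ⟨p, hp, hz⟩ := h c hcd
  rw [Ix, mem_filter] at hp
  have hne' : (e p.1).1 ≠ (e p.2).1 := by
    intro h'
    exact hp.2.ne (e.injective (Subtype.ext h'))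
  obtain ⟨a, ha, b, hb, hab⟩ := h3 _ _ hne'
  obtain ⟨u, rfl⟩ := (hc p.1 a).1 ((hFmem _ _).2 ha)
  obtain ⟨v, rfl⟩ := (hc p.2 b).1 ((hFmem _ _).2 hb)
  refine hab.2 (hz _ ?_)
  rw [Bl, mem_image]
  exact ⟨(u, v), mem_univ _, rfl⟩

/-- the estimate of the two error probabilities -/
theorem estimate (n q s t k : ℕ) (hs : 1 ≤ s) (ε : ℝ) (hε : 0 < ε) (hε1 : ε ≤ 1) (hn : 3 ≤ n)
    (hQ : 16 * s * Real.log n * ((q : ℝ) + 1) ^ (s ^ 2) ≤ ε * n)
    (ht1 : ε * n ≤ t + 1) (hk1 : 6 * (n : ℝ) / ((q : ℝ) + 1) ≤ k) :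
    (n : ℝ) * n.choose k / ((q : ℝ) + 1) ^ k +
      ((n : ℝ) ^ s) ^ t * (1 - 1 / ((q : ℝ) + 1) ^ (s ^ 2)) ^ (t.choose 2) < 1 := by
  have hnR : (3 : ℝ) ≤ n := by exact_mod_cast hn
  have hn0 : (0 : ℝ) < n := by linarith
  have hsR : (1 : ℝ) ≤ s := by exact_mod_cast hs
  set L := Real.log n with hL
  have hL1 : 1 ≤ L := by
    rw [hL, Real.le_log_iff_exp_le hn0]
    have := Real.exp_one_lt_d9
    linarith
  set Q : ℝ := (q : ℝ) + 1 with hQdef
  have hQ1 : 1 ≤ Q := by
    have : (0 : ℝ) ≤ q := by positivity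
    linarith
  have hQ0 : 0 < Q := by linarith
  set R : ℝ := Q ^ (s ^ 2) with hR
  have hQR : Q ≤ R := by
    calc Q = Q ^ 1 := (pow_one Q).symm
      _ ≤ R := pow_le_pow_right₀ hQ1 (Nat.one_le_pow _ _ (by omega))
  have hR1 : 1 ≤ R := hQ1.trans hQR
  have hsL : 1 ≤ s * L := by nlinarith
  have hen : 16 ≤ ε * n := by nlinarith
  have hfirst : (n : ℝ) * n.choose k / Q ^ k ≤ 1 / 4 := by
    have h1 : (n.choose k : ℝ) ≤ (n : ℝ) ^ k / (Nat.factorial k : ℝ) := Nat.choose_le_pow_div k n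
    have h2 := fact_bound k ((n : ℝ) / Q) (by positivity) (by
      rw [← mul_div_assoc]; exact hk1)
    have h3 : (n : ℝ) * n.choose k / Q ^ k ≤ n * (1 / 2) ^ k := by
      have h4 : (n.choose k : ℝ) / Q ^ k ≤ (1 / 2) ^ k := by
        refine le_trans ?_ h2
        rw [div_pow]
        calc (n.choose k : ℝ) / Q ^ k ≤ ((n : ℝ) ^ k / (Nat.factorial k : ℝ)) / Q ^ k := by
              gcongr
          _ = (n : ℝ) ^ k / Q ^ k / (Nat.factorial k : ℝ) := by
              rw [div_div, div_div, mul_comm]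
      calc (n : ℝ) * n.choose k / Q ^ k = n * (n.choose k / Q ^ k) := by ring
        _ ≤ n * (1 / 2) ^ k := mul_le_mul_of_nonneg_left h4 hn0.le
    refine h3.trans ?_
    -- k ≥ 96 L
    have h5 : 96 * L ≤ k := by
      refine le_trans ?_ hk1
      rw [le_div_iff₀ hQ0]
      have h6 : 16 * L * Q ≤ 16 * s * L * R := by
        have h7 : L * Q ≤ (s * L) * R :=
          mul_le_mul (by nlinarith) hQR hQ0.le (by linarith)
        nlinarith
      have h8 : ε * n ≤ n := by nlinarith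
      linarith
    have h10 : 4 * (n : ℝ) ≤ 2 ^ k := by
      have h11 : (2 : ℝ) ^ k = Real.exp (k * Real.log 2) := by
        rw [mul_comm, Real.exp_mul, Real.exp_log (by norm_num), Real.rpow_natCast]
      have h14 := Real.log_two_gt_d9
      have h12 : 2 + L ≤ (k : ℝ) * Real.log 2 := by nlinarith
      have h13 : (n : ℝ) = Real.exp L := by rw [hL, Real.exp_log hn0]
      have h15 : 4 ≤ Real.exp 2 := by
        have h16 : Real.exp 2 = Real.exp 1 ^ 2 := by
          rw [← Real.exp_nat_mul]; norm_num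
        rw [h16]
        have := Real.exp_one_gt_d9
        nlinarith
      calc 4 * (n : ℝ) ≤ Real.exp 2 * n := mul_le_mul_of_nonneg_right h15 hn0.le
        _ = Real.exp (2 + L) := by rw [Real.exp_add, ← h13]
        _ ≤ Real.exp (k * Real.log 2) := Real.exp_le_exp.2 h12
        _ = 2 ^ k := h11.symm
    have h18 : ((1 : ℝ) / 2) ^ k * 2 ^ k = 1 := by rw [← mul_pow]; norm_num
    have h19 : (0 : ℝ) < (1 / 2) ^ k := by positivity
    nlinarith
  have hsecond : ((n : ℝ) ^ s) ^ t * (1 - 1 / R) ^ (t.choose 2) ≤ 1 / 4 := by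
    have g1 : (0 : ℝ) ≤ 1 - 1 / R := by
      have : 1 / R ≤ 1 := by
        rw [div_le_one (by positivity)]; exact hR1
      linarith
    have g2 : 1 - 1 / R ≤ Real.exp (-(1 / R)) := Real.one_sub_le_exp_neg _
    have hen0 : 0 < ε * n := by positivity
    have g3 : 16 * s * L / (ε * n) ≤ 1 / R := by
      rw [div_le_div_iff₀ hen0 (by positivity)]
      linarith
    have g4 : (1 - 1 / R) ^ (t.choose 2) ≤
        Real.exp (-(16 * s * L / (ε * n)) * (t.choose 2 : ℝ)) := by
      calc (1 - 1 / R) ^ (t.choose 2) ≤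
            (Real.exp (-(16 * s * L / (ε * n)))) ^ (t.choose 2) := by
            refine pow_le_pow_left₀ g1 (g2.trans ?_) _
            exact Real.exp_le_exp.2 (by linarith)
        _ = Real.exp (-(16 * s * L / (ε * n)) * (t.choose 2 : ℝ)) := by
            rw [← Real.exp_nat_mul, mul_comm]
    have g5 : ((n : ℝ) ^ s) ^ t = Real.exp (s * t * L) := by
      rw [← pow_mul, hL, mul_comm ((s : ℝ) * (t : ℝ)), ← Real.rpow_def_of_pos hn0]
      rw [← Real.rpow_natCast]
      push_cast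
      rfl
    have g6 : (t.choose 2 : ℝ) = t * (t - 1) / 2 := Nat.cast_choose_two ℝ t
    have ht0 : (1 : ℝ) ≤ t := by linarith
    have g7 : (ε * n) / 2 ≤ (t : ℝ) - 1 := by linarith
    have g8 : 4 * (s * t * L) ≤ (16 * s * L / (ε * n)) * (t.choose 2 : ℝ) := by
      rw [g6, div_mul_eq_mul_div, le_div_iff₀ hen0]
      have g9 : 0 ≤ s * t * L := by positivity
      nlinarith
    have g11 : 1 ≤ s * t * L := by nlinarith
    have g10 : Real.exp (-(16 * s * L / (ε * n)) * (t.choose 2 : ℝ)) ≤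
        Real.exp (-(4 * (s * t * L))) :=
      Real.exp_le_exp.2 (by linarith)
    rw [g5]
    calc Real.exp (s * t * L) * (1 - 1 / R) ^ (t.choose 2) ≤
        Real.exp (s * t * L) * Real.exp (-(4 * (s * t * L))) :=
          mul_le_mul_of_nonneg_left (g4.trans g10) (Real.exp_pos _).le
      _ = Real.exp (-(3 * (s * t * L))) := by rw [← Real.exp_add]; congr 1; ring
      _ ≤ Real.exp (-2) := Real.exp_le_exp.2 (by nlinarith)
      _ ≤ 1 / 4 := by
          rw [Real.exp_neg, inv_eq_one_div]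
          refine one_div_le_one_div_of_le (by norm_num) ?_
          have : Real.exp 2 = Real.exp 1 ^ 2 := by
            rw [← Real.exp_nat_mul]; norm_num
          rw [this]
          have := Real.exp_one_gt_d9
          nlinarith
  linarith

/-- Sharpness of the exponent `1 - 1 / s ^ 2`. -/
theorem sharp (s : ℕ) (hs : 1 ≤ s) (ε : ℝ) (hε : 0 < ε) (hε1 : ε ≤ 1) (n : ℕ) (hn : 3 ≤ n)
    (hbig : 16 * s * Real.log n ≤ ε * n) :
    ∃ G : SimpleGraph (Fin n),
      (∀ x, ((NonNbr G x).ncard : ℝ) ≤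
        (192 * s / ε) * (n : ℝ) ^ (1 - 1 / (s : ℝ) ^ 2) * Real.log n ^ (1 / (s : ℝ) ^ 2)) ∧
      ∀ m : ℕ, (1 / ((s : ℝ) + 1) + ε) * n ≤ m → ¬ HasCliqueMinor G m := by
  have hn0 : (0 : ℝ) < n := by exact_mod_cast (show 0 < n by omega)
  have hn3 : (3 : ℝ) ≤ n := by exact_mod_cast hn
  have hsR : (1 : ℝ) ≤ s := by exact_mod_cast hs
  set L := Real.log n with hL
  have hL1 : 1 ≤ L := by
    rw [hL, Real.le_log_iff_exp_le hn0]
    have := Real.exp_one_lt_d9
    linarith
  set A : ℝ := 16 * s / ε with hA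
  have hA1 : 1 ≤ A := by
    rw [hA, le_div_iff₀ hε]
    nlinarith
  set β : ℝ := 1 / (s : ℝ) ^ 2 with hβ
  have hβ0 : 0 < β := by positivity
  have hβ1 : β ≤ 1 := by
    rw [hβ, div_le_one (by positivity)]
    exact one_le_pow₀ hsR
  set y : ℝ := (n : ℝ) / (A * L) with hy
  have hy1 : 1 ≤ y := by
    rw [hy, le_div_iff₀ (by positivity), hA]
    rw [one_mul, div_mul_eq_mul_div, div_le_iff₀ hε]
    linarith
  set x : ℝ := y ^ β with hx
  have hxs : x ^ (s ^ 2) = y := by
    rw [hx, ← Real.rpow_natCast, ← Real.rpow_mul (by linarith), hβ]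
    push_cast
    rw [one_div, inv_mul_cancel₀ (by positivity), Real.rpow_one]
  have hx1 : 1 ≤ x := Real.one_le_rpow hy1 hβ0.le
  set Qn : ℕ := ⌊x⌋₊ with hQn
  have hQ1 : 1 ≤ Qn := by
    rw [hQn, Nat.one_le_floor_iff]
    exact hx1
  have hQx : (Qn : ℝ) ≤ x := Nat.floor_le (by linarith)
  have hQx2 : x < Qn + 1 := Nat.lt_floor_add_one x
  obtain ⟨q, hq⟩ : ∃ q, Qn = q + 1 := ⟨Qn - 1, by omega⟩
  have hQq : ((q : ℝ) + 1) = Qn := by rw [hq]; push_cast; rfl
  have hQ1' : (1 : ℝ) ≤ Qn := by exact_mod_cast hQ1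
  set k : ℕ := ⌈6 * (n : ℝ) / ((q : ℝ) + 1)⌉₊ with hk
  set t : ℕ := ⌊ε * n⌋₊ with ht
  have ht1 : (t : ℝ) ≤ ε * n := Nat.floor_le (by positivity)
  have ht2 : ε * n ≤ t + 1 := (Nat.lt_floor_add_one _).le
  obtain ⟨ω, h1, h2⟩ := exists_good n q s t k (estimate n q s t k hs ε hε hε1 hn (by
    rw [hQq]
    have h3 : (Qn : ℝ) ^ (s ^ 2) ≤ x ^ (s ^ 2) := pow_le_pow_left₀ (by positivity) hQx _
    rw [hxs, hy, le_div_iff₀ (by positivity), hA] at h3
    have h4 : (Qn : ℝ) ^ (s ^ 2) * (16 * s / ε * L) =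
        (16 * s * L * (Qn : ℝ) ^ (s ^ 2)) / ε := by ring
    rw [h4, div_le_iff₀ hε] at h3
    linarith) ht2 (Nat.le_ceil _))
  refine ⟨gr n q ω, fun v => ?_, fun m hm => no_minor n q s t hs ε hε ht1 ω h2 m hm⟩
  have hlt := nonnbr_lt n q k ω h1 v
  have hlt' : (((NonNbr (gr n q ω) v).ncard : ℕ) : ℝ) ≤ 6 * (n : ℝ) / ((q : ℝ) + 1) := by
    have h3 : (NonNbr (gr n q ω) v).ncard < ⌈6 * (n : ℝ) / ((q : ℝ) + 1)⌉₊ := hlt
    exact (Nat.lt_ceil.1 h3).le
  refine hlt'.trans ?_
  rw [hQq]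
  have hx0 : 0 < x := by linarith
  have h4 : 6 * (n : ℝ) / Qn ≤ 12 * n / x := by
    rw [div_le_div_iff₀ (by linarith) hx0]
    nlinarith
  refine h4.trans ?_
  rw [div_le_iff₀ hx0, hx, hy]
  have h5 : ((n : ℝ) / (A * L)) ^ β = (n : ℝ) ^ β / (A ^ β * L ^ β) := by
    rw [Real.div_rpow hn0.le (by positivity), Real.mul_rpow (by positivity) (by positivity)]
  rw [h5]
  have hLpos : 0 < L ^ β := Real.rpow_pos_of_pos (by linarith) _
  have hApos : 0 < A ^ β := Real.rpow_pos_of_pos (by linarith) _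
  have h6 : A ^ β ≤ A := by
    calc A ^ β ≤ A ^ (1 : ℝ) := Real.rpow_le_rpow_of_exponent_le hA1 hβ1
      _ = A := Real.rpow_one A
  have h7 : (n : ℝ) ^ (1 - β) * (n : ℝ) ^ β = n := by
    rw [← Real.rpow_add hn0, sub_add_cancel, Real.rpow_one]
  have h8 : (192 * s / ε) * (n : ℝ) ^ (1 - β) * L ^ β *
      ((n : ℝ) ^ β / (A ^ β * L ^ β)) = 12 * A * n / A ^ β := by
    have h9 : (192 * s / ε) * (n : ℝ) ^ (1 - β) * L ^ β *
      ((n : ℝ) ^ β / (A ^ β * L ^ β)) = (192 * s / ε) * ((n : ℝ) ^ (1 - β) * (n : ℝ) ^ β) *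
        (L ^ β / L ^ β) / A ^ β := by
      field_simp
    rw [h9, h7, div_self hLpos.ne', hA]
    ring
  rw [h8, le_div_iff₀ hApos]
  nlinarith

end Pool.Agent.H65.CF.Sh
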